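import Pool.Agent.H706R2.Mah.Defs

/-!
# Task T1: gradient type maps are bijective, change of variables
-/

namespace Pool.Agent.H706R2.Mah

open MeasureTheory Real Set Filter Topology
open scoped RealInnerProductSpace ENNReal Matrix

variable {n : ℕ} {ι : Type} [Fintype ι]

private theorem t1_det (M : Mat n) : (clm M).det = M.det := by
  unfold ContinuousLinearMap.det
  rw [Matrix.coe_toEuclideanCLM_eq_toEuclideanLin, Matrix.toEuclideanLin_eq_toLin_orthonormal,
    LinearMap.det_toLin]

private theorem t1_clm_sum (c : ι → ℝ) (A : ι → Mat n) :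
    clm (∑ l, c l • A l) = ∑ l, c l • clm (A l) := by
  show Matrix.toEuclideanCLM (𝕜 := ℝ) (∑ l, c l • A l) = _
  rw [map_sum]
  exact Finset.sum_congr rfl fun l _ => map_smul _ _ _

/-- strong monotonicity of `g` -/
private theorem t1_mono {δ C : ℝ} {g : E n → E n} {A : E n → Mat n} (h : Nice δ C g A)
    (u v : E n) : δ * ‖u - v‖ ^ 2 ≤ ⟪g u - g v, u - v⟫ := by
  set w := u - v with hw
  have hder : ∀ t : ℝ, HasDerivAt (fun t : ℝ => ⟪g (v + t • w), w⟫)
      ⟪clm (A (v + t • w)) w, w⟫ t := by
    intro t
    have h1 : HasDerivAt (fun t : ℝ => v + t • w) w t := by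
      have := ((hasDerivAt_id t).smul_const w).const_add v
      simpa using this
    have h2 := (h.deriv (v + t • w)).comp_hasDerivAt t h1
    have h3 := h2.inner ℝ (hasDerivAt_const t w)
    simpa using h3
  have h1 := mul_sub_le_image_sub_of_le_deriv (f := fun t : ℝ => ⟪g (v + t • w), w⟫)
    (fun t => (hder t).differentiableAt) (C := δ * ‖w‖ ^ 2) (fun t => by
      rw [(hder t).deriv, real_inner_comm]
      exact h.low _ _) (zero_le_one)
  have h2 : v + (1 : ℝ) • w = u := by rw [one_smul, hw]; abel
  have h3 : v + (0 : ℝ) • w = v := by rw [zero_smul, add_zero]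
  simp only [h2, h3] at h1
  rw [sub_zero, mul_one] at h1
  rw [inner_sub_left]
  exact h1

/-- T1. Gradient type maps `H(x) = ∑ d_l g(c_l x + e_l)`, `c_l d_l > 0`: bijective, derivative,
positive Jacobian, change of variables (Bochner, complex valued, no integrability needed) and
lintegral. -/
theorem T1_map {δ C : ℝ} {g : E n → E n} {A : E n → Mat n} (h : Nice δ C g A) [Nonempty ι]
    (c d : ι → ℝ) (e : ι → E n) (hcd : ∀ l, 0 < c l * d l) :
    (Function.Bijective fun x : E n => ∑ l, d l • g (c l • x + e l)) ∧
    (∀ x, HasFDerivAt (fun x : E n => ∑ l, d l • g (c l • x + e l))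
      (clm (∑ l, (c l * d l) • A (c l • x + e l))) x) ∧
    (∀ x : E n, (∑ l, (c l * d l) • A (c l • x + e l)).PosDef) ∧
    (∀ F : E n → ℂ, ∫ x : E n, F (∑ l, d l • g (c l • x + e l)) *
        (((∑ l, (c l * d l) • A (c l • x + e l)).det : ℝ) : ℂ) = ∫ v, F v) ∧
    (∀ F : E n → ℝ≥0∞, ∫⁻ x : E n, F (∑ l, d l • g (c l • x + e l)) *
        ENNReal.ofReal (∑ l, (c l * d l) • A (c l • x + e l)).det = ∫⁻ v, F v) := by
  set H : E n → E n := fun x => ∑ l, d l • g (c l • x + e l) with hH
  set M : E n → Mat n := fun x => ∑ l, (c l * d l) • A (c l • x + e l) with hM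
  have hcne : ∀ l, c l ≠ 0 := fun l hl => by
    have := hcd l
    rw [hl, zero_mul] at this
    exact lt_irrefl _ this
  have hS : 0 < ∑ l, c l * d l :=
    Finset.sum_pos (fun l _ => hcd l) Finset.univ_nonempty
  have hδ := h.δpos
  set κ : ℝ := δ * ∑ l, c l * d l with hκ
  have hκpos : 0 < κ := mul_pos hδ hS
  -- derivative
  have hderiv : ∀ x, HasFDerivAt H (clm (M x)) x := by
    intro x
    have h1 : ∀ l, HasFDerivAt (fun x : E n => d l • g (c l • x + e l))
        ((c l * d l) • clm (A (c l • x + e l))) x := by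
      intro l
      have h2 : HasFDerivAt (fun x : E n => c l • x + e l)
          (c l • ContinuousLinearMap.id ℝ (E n)) x :=
        ((hasFDerivAt_id x).const_smul (c l)).add_const (e l)
      have h3 := ((h.deriv (c l • x + e l)).comp x h2).const_smul (d l)
      have h4 : d l • (clm (A (c l • x + e l))).comp (c l • ContinuousLinearMap.id ℝ (E n)) =
          (c l * d l) • clm (A (c l • x + e l)) := by
        rw [ContinuousLinearMap.comp_smul, ContinuousLinearMap.comp_id, smul_smul, mul_comm]
      rw [h4] at h3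
      exact h3
    have h5 := HasFDerivAt.fun_sum (u := Finset.univ) (fun l (_ : l ∈ Finset.univ) => h1 l)
    rw [← t1_clm_sum (fun l => c l * d l) (fun l => A (c l • x + e l))] at h5
    exact h5
  -- quadratic form
  have hquad : ∀ x w : E n, κ * ‖w‖ ^ 2 ≤ ⟪w, clm (M x) w⟫ := by
    intro x w
    rw [hM, t1_clm_sum (fun l => c l * d l) (fun l => A (c l • x + e l)),
      _root_.sum_apply, inner_sum, hκ, mul_assoc, mul_comm (∑ l, c l * d l),
      ← mul_assoc, Finset.mul_sum]
    refine Finset.sum_le_sum fun l _ => ?_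
    rw [_root_.smul_apply, real_inner_smul_right, mul_comm]
    exact mul_le_mul_of_nonneg_left (h.low _ _) (hcd l).le
  -- positive definite
  have hpos : ∀ x, (M x).PosDef := by
    intro x
    refine Matrix.PosDef.of_dotProduct_mulVec_pos ?_ ?_
    · have h1 : (M x).conjTranspose = M x := by
        rw [hM]
        simp only [Matrix.conjTranspose_sum, Matrix.conjTranspose_smul]
        refine Finset.sum_congr rfl fun l _ => ?_
        rw [(h.herm _).eq]
        simp
      exact h1
    · intro w hw
      have h1 := hquad x (WithLp.toLp 2 w)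
      rw [Matrix.inner_toEuclideanCLM] at h1
      have h2 : 0 < ‖(WithLp.toLp 2 w : E n)‖ := by
        rw [norm_pos_iff]
        intro h0
        apply hw
        have := congrArg WithLp.ofLp h0
        simpa using this
      have h3 : 0 < κ * ‖(WithLp.toLp 2 w : E n)‖ ^ 2 := by positivity
      have h4 : star w ⬝ᵥ M x *ᵥ w = (WithLp.toLp 2 w : E n).ofLp ⬝ᵥ M x *ᵥ (WithLp.toLp 2 w : E n).ofLp := by
        rw [star_trivial]
      rw [h4]
      exact lt_of_lt_of_le h3 h1
  -- strong monotonicity
  have hmono : ∀ x y, κ * ‖x - y‖ ^ 2 ≤ ⟪H x - H y, x - y⟫ := by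
    intro x y
    rw [hH]
    simp only
    rw [← Finset.sum_sub_distrib, sum_inner, hκ, mul_assoc, mul_comm (∑ l, c l * d l),
      ← mul_assoc, Finset.mul_sum]
    refine Finset.sum_le_sum fun l _ => ?_
    have h1 := t1_mono h (c l • x + e l) (c l • y + e l)
    have h2 : c l • x + e l - (c l • y + e l) = c l • (x - y) := by
      rw [smul_sub]; abel
    rw [h2, norm_smul, mul_pow, real_inner_smul_right, Real.norm_eq_abs, sq_abs] at h1
    rw [← smul_sub, real_inner_smul_left]
    set I := ⟪g (c l • x + e l) - g (c l • y + e l), x - y⟫ with hI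
    -- h1 : δ * (c² * ‖x-y‖²) ≤ c * I
    have h3 : 0 < d l / c l := by
      have h4 : d l / c l = (c l * d l) / (c l) ^ 2 := by
        have := hcne l
        field_simp
      rw [h4]
      exact div_pos (hcd l) (by have := hcne l; positivity)
    have h5 := mul_le_mul_of_nonneg_left h1 h3.le
    have h6 : d l / c l * (δ * (c l ^ 2 * ‖x - y‖ ^ 2)) = δ * ‖x - y‖ ^ 2 * (c l * d l) := by
      have := hcne l
      field_simp
    have h7 : d l / c l * (c l * I) = d l * I := by
      have := hcne l
      field_simp
    rw [h6, h7] at h5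
    exact h5
  have hanti : ∀ x y, κ * ‖x - y‖ ≤ ‖H x - H y‖ := by
    intro x y
    rcases eq_or_ne x y with rfl | hxy
    · simp
    · have h1 : 0 < ‖x - y‖ := norm_pos_iff.2 (sub_ne_zero.2 hxy)
      have h2 := (hmono x y).trans (real_inner_le_norm _ _)
      have h3 : κ * ‖x - y‖ * ‖x - y‖ ≤ ‖H x - H y‖ * ‖x - y‖ := by
        calc κ * ‖x - y‖ * ‖x - y‖ = κ * ‖x - y‖ ^ 2 := by ring
          _ ≤ _ := h2
      exact le_of_mul_le_mul_right h3 h1
  have hinj : Function.Injective H := by
    intro x y hxy
    have h1 := hanti x y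
    rw [hxy, sub_self, norm_zero] at h1
    have h2 : ‖x - y‖ ≤ 0 := by
      by_contra hcon
      push Not at hcon
      have := mul_pos hκpos hcon
      linarith
    exact sub_eq_zero.1 (norm_le_zero_iff.1 h2)
  have hcont : Continuous H := continuous_iff_continuousAt.2 fun x => (hderiv x).continuousAt
  have hAL : AntilipschitzWith (Real.toNNReal κ⁻¹) H := by
    refine AntilipschitzWith.of_le_mul_dist fun x y => ?_
    rw [dist_eq_norm, dist_eq_norm, Real.coe_toNNReal _ (inv_pos.2 hκpos).le]
    rw [inv_mul_eq_div, le_div_iff₀ hκpos, mul_comm]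
    exact hanti x y
  have hclosed : IsClosed (range H) := by
    have h1 : Tendsto H (cocompact (E n)) (cocompact (E n)) := by
      rw [← Metric.cobounded_eq_cocompact]
      exact hAL.tendsto_cobounded
    exact (isProperMap_iff_tendsto_cocompact.2 ⟨hcont, h1⟩).isClosedMap.isClosed_range
  have hMcont : Continuous fun x => clm (M x) := by
    have h1 : Continuous M := by
      rw [hM]
      refine continuous_finsetSum _ fun l _ => ?_
      have h0 : Continuous fun x : E n => c l • x + e l := by fun_prop
      exact (h.cont.comp h0).const_smul (c l * d l)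
    have h2 : Continuous (fun N : Mat n => (clm N : E n →L[ℝ] E n)) :=
      LinearMap.continuous_of_finiteDimensional
        ((Matrix.toEuclideanCLM (n := Fin n) (𝕜 := ℝ)).toAlgEquiv.toLinearMap)
    exact h2.comp h1
  have hopen : IsOpenMap H := by
    rw [isOpenMap_iff_nhds_le]
    intro x
    have h1 : HasStrictFDerivAt H (clm (M x)) x :=
      hasStrictFDerivAt_of_hasFDerivAt_of_continuousAt (f' := fun x => clm (M x))
        (Eventually.of_forall hderiv) hMcont.continuousAt
    refine (h1.map_nhds_eq_of_surj ?_).ge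
    have h2 : Function.Injective (clm (M x)).toLinearMap := by
      rw [injective_iff_map_eq_zero]
      intro w hw
      have h3 := hquad x w
      have h4 : clm (M x) w = 0 := hw
      rw [h4, inner_zero_right] at h3
      have h5 : ‖w‖ ^ 2 ≤ 0 := by
        by_contra hcon
        push Not at hcon
        have := mul_pos hκpos hcon
        linarith
      have h6 : ‖w‖ = 0 := by
        have := sq_nonneg ‖w‖
        exact pow_eq_zero_iff (two_ne_zero) |>.1 (le_antisymm h5 this)
      exact norm_eq_zero.1 h6
    exact LinearMap.range_eq_top.2 (LinearMap.injective_iff_surjective.1 h2)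
  have hsurj : Function.Surjective H := by
    rw [← range_eq_univ]
    exact IsClopen.eq_univ ⟨hclosed, hopen.isOpen_range⟩ (range_nonempty H)
  have hdetpos : ∀ x, 0 < (M x).det := fun x => (hpos x).det_pos
  refine ⟨⟨hinj, hsurj⟩, hderiv, hpos, ?_, ?_⟩
  · intro F
    have h1 := integral_image_eq_integral_abs_det_fderiv_smul volume MeasurableSet.univ
      (fun x _ => (hderiv x).hasFDerivWithinAt) hinj.injOn F
    rw [image_univ, range_eq_univ.2 hsurj, setIntegral_univ, setIntegral_univ] at h1
    rw [h1]
    refine integral_congr_ae (Eventually.of_forall fun x => ?_)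
    show F (H x) * (((M x).det : ℝ) : ℂ) = |(clm (M x)).det| • F (H x)
    rw [t1_det, abs_of_pos (hdetpos x), Complex.real_smul, mul_comm]
  · intro F
    have h1 := lintegral_image_eq_lintegral_abs_det_fderiv_mul volume MeasurableSet.univ
      (fun x _ => (hderiv x).hasFDerivWithinAt) hinj.injOn F
    rw [image_univ, range_eq_univ.2 hsurj, setLIntegral_univ, setLIntegral_univ] at h1
    rw [h1]
    refine lintegral_congr fun x => ?_
    show F (H x) * ENNReal.ofReal (M x).det = ENNReal.ofReal |(clm (M x)).det| * F (H x)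
    rw [t1_det, abs_of_pos (hdetpos x), mul_comm]

end Pool.Agent.H706R2.Mah
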