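import Mathlib

/-!
# Volume product of symmetric convex bodies: definitions for the bound
`vol K * vol K° ≥ (3^{3/4} π / 2)^n / n!`
-/

namespace Pool.Agent.H706R2.Mah

open MeasureTheory Real Set Filter Topology
open scoped RealInnerProductSpace ENNReal

/-- Euclidean space. -/
abbrev E (n : ℕ) := EuclideanSpace ℝ (Fin n)

/-- Real `n × n` matrices. -/
abbrev Mat (n : ℕ) := Matrix (Fin n) (Fin n) ℝ

/-- The continuous linear map of a matrix. -/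
noncomputable abbrev clm {n : ℕ} (M : Mat n) : E n →L[ℝ] E n :=
  Matrix.toEuclideanCLM (𝕜 := ℝ) M

/-- `g` is a `C^1` map with symmetric derivative matrix `A`, uniformly positive definite and
bounded (think: `g = ∇φ`, `A = D²φ`). -/
structure Nice {n : ℕ} (δ C : ℝ) (g : E n → E n) (A : E n → Mat n) : Prop where
  δpos : 0 < δ
  Cpos : 0 < C
  deriv : ∀ x, HasFDerivAt g (clm (A x)) x
  cont : Continuous A
  herm : ∀ x, (A x).IsHermitian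
  low : ∀ x h : E n, δ * ‖h‖ ^ 2 ≤ ⟪h, clm (A x) h⟫
  entry : ∀ x i j, |A x i j| ≤ C
  growth : ∀ x, ‖g x‖ ≤ C * (1 + ‖x‖)

/-- Directions `(a l, b l)` in the plane. -/
structure Good {ι : Type} [Fintype ι] (c₀ : ℝ) (a b : ι → ℝ) : Prop where
  pos : 0 < c₀
  span : ∀ s t : ℝ, c₀ * (s ^ 2 + t ^ 2) ≤ ∑ l, (a l * s + b l * t) ^ 2
  ne : ∀ l, a l + b l ≠ 0

section
variable {n : ℕ} {ι : Type} [Fintype ι]

/-- `x_l = a_l x + b_l y`. -/
def pt (a b : ι → ℝ) (x y : E n) (l : ι) : E n := a l • x + b l • y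

/-- `Φ_x = ∑ a_l g(x_l)`. -/
def Gx (g : E n → E n) (a b : ι → ℝ) (x y : E n) : E n := ∑ l, a l • g (pt a b x y l)

/-- `Φ_y = ∑ b_l g(x_l)`. -/
def Gy (g : E n → E n) (a b : ι → ℝ) (x y : E n) : E n := ∑ l, b l • g (pt a b x y l)

/-- `W = ∑ ⟨x_l, g(x_l)⟩`. -/
noncomputable def Wf (g : E n → E n) (a b : ι → ℝ) (x y : E n) : ℝ := ∑ l, ⟪pt a b x y l, g (pt a b x y l)⟫

/-- The phase `-(ε/2)(X·X+Y·Y) + i X·Y` with `X = e^{iχ/2} x - e^{-iχ/2} y`,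
`Y = e^{iχ/2} Φ_x + e^{-iχ/2} Φ_y` (bilinear products), written out. -/
noncomputable def phase (ε : ℝ) (g : E n → E n) (a b : ι → ℝ) (χ : ℂ) (x y : E n) : ℂ :=
  -((ε : ℂ) / 2) *
      (Complex.exp (Complex.I * χ) * ((‖x‖ ^ 2 + ‖Gx g a b x y‖ ^ 2 : ℝ) : ℂ)
        + Complex.exp (-(Complex.I * χ)) * ((‖y‖ ^ 2 + ‖Gy g a b x y‖ ^ 2 : ℝ) : ℂ)
        + 2 * ((⟪Gx g a b x y, Gy g a b x y⟫ - ⟪x, y⟫ : ℝ) : ℂ))
    + Complex.I *
      (Complex.exp (Complex.I * χ) * ((⟪x, Gx g a b x y⟫ : ℝ) : ℂ)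
        - Complex.exp (-(Complex.I * χ)) * ((⟪y, Gy g a b x y⟫ : ℝ) : ℂ)
        + ((⟪x, Gy g a b x y⟫ - ⟪y, Gx g a b x y⟫ : ℝ) : ℂ))

/-- The Jacobian `det (∑ (a_l² + b_l² + 2 cos χ a_l b_l) A(x_l))`. -/
noncomputable def detf (A : E n → Mat n) (a b : ι → ℝ) (χ : ℂ) (x y : E n) : ℂ :=
  (∑ l, (((a l ^ 2 + b l ^ 2 : ℝ) : ℂ) + 2 * Complex.cos χ * ((a l * b l : ℝ) : ℂ)) •
    (A (pt a b x y l)).map (fun r : ℝ => (r : ℂ))).det

/-- The real Jacobian at `χ = π/2`. -/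
noncomputable def detR (A : E n → Mat n) (a b : ι → ℝ) (x y : E n) : ℝ :=
  (∑ l, (a l ^ 2 + b l ^ 2) • A (pt a b x y l)).det

/-- The polar body. -/
def polar (K : Set (E n)) : Set (E n) := {y | ∀ x ∈ K, ⟪x, y⟫ ≤ 1}

end

/-- The directions used in the proof. -/
noncomputable def aD : Fin 4 → ℝ := ![√3, √3, 1, 1]

/-- The directions used in the proof. -/
noncomputable def bD : Fin 4 → ℝ := ![1, -1, √3, -√3]

end Pool.Agent.H706R2.Mah
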