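import Pool.Agent.H706R2.Mah.Defs

/-!
# Stubs (exact statements of the tasks) for the bound
`vol K * vol K° ≥ (3^{3/4} π / 2)^n / n!` (MP_6fea95_gt)
-/

namespace Pool.Agent.H706R2.Mah

open MeasureTheory Real Set Filter Topology
open scoped RealInnerProductSpace ENNReal

variable {n : ℕ} {ι : Type} [Fintype ι]

/-- T1. Gradient type maps `H(x) = ∑ d_l g(c_l x + e_l)`, `c_l d_l > 0`: bijective, derivative,
positive Jacobian, change of variables (Bochner, complex valued, no integrability needed) and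
lintegral. -/
theorem T1_map {δ C : ℝ} {g : E n → E n} {A : E n → Mat n} (h : Nice δ C g A) [Nonempty ι]
    (c d : ι → ℝ) (e : ι → E n) (hcd : ∀ l, 0 < c l * d l) :
    (Function.Bijective fun x : E n => ∑ l, d l • g (c l • x + e l)) ∧
    (∀ x, HasFDerivAt (fun x : E n => ∑ l, d l • g (c l • x + e l))
      (clm (∑ l, (c l * d l) • A (c l • x + e l))) x) ∧
    (∀ x : E n, (∑ l, (c l * d l) • A (c l • x + e l)).PosDef) ∧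
    (∀ F : E n → ℂ, ∫ x : E n, F (∑ l, d l • g (c l • x + e l)) *
        (((∑ l, (c l * d l) • A (c l • x + e l)).det : ℝ) : ℂ) = ∫ v, F v) ∧
    (∀ F : E n → ℝ≥0∞, ∫⁻ x : E n, F (∑ l, d l • g (c l • x + e l)) *
        ENNReal.ofReal (∑ l, (c l * d l) • A (c l • x + e l)).det = ∫⁻ v, F v) := by
  sorry

/-- T2. Trace Jensen inequality for log det. -/
theorem T2_logdet (A : ι → Mat n) (hA : ∀ l, (A l).PosSemidef) (hS : (∑ l, A l).PosDef) :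
    ∃ q : ι → ℝ, (∀ l, 0 ≤ q l) ∧ ∑ l, q l = n ∧ ∀ r : ι → ℝ, (∀ l, 0 < r l) →
      0 < (∑ l, r l • A l).det ∧
      Real.log (∑ l, A l).det + ∑ l, q l * Real.log (r l) ≤ Real.log (∑ l, r l • A l).det := by
  sorry

/-- T3. Holomorphic dependence of integrals on a parameter. -/
theorem T3_holo {Ω : Type*} [MeasurableSpace Ω] {μ : Measure Ω} {U : Set ℂ} (hU : IsOpen U)
    (f : ℂ → Ω → ℂ) (bd : Ω → ℝ) (hbd : Integrable bd μ) (hle : ∀ z ∈ U, ∀ ω, ‖f z ω‖ ≤ bd ω)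
    (hm : ∀ z ∈ U, AEStronglyMeasurable (f z) μ)
    (hd : ∀ ω, DifferentiableOn ℂ (fun z => f z ω) U) :
    DifferentiableOn ℂ (fun z => ∫ ω, f z ω ∂μ) U := by
  sorry

/-- T4. The Gaussian integral on `E × E`. -/
theorem T4_gauss (n : ℕ) {ε : ℝ} (hε : 0 < ε) :
    Integrable (fun ω : E n × E n => Complex.exp
      (-((ε : ℂ) / 2) * ((‖ω.1‖ ^ 2 + ‖ω.2‖ ^ 2 : ℝ) : ℂ) + Complex.I * ((⟪ω.1, ω.2⟫ : ℝ) : ℂ))) ∧
    ∫ ω : E n × E n, Complex.exp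
      (-((ε : ℂ) / 2) * ((‖ω.1‖ ^ 2 + ‖ω.2‖ ^ 2 : ℝ) : ℂ) + Complex.I * ((⟪ω.1, ω.2⟫ : ℝ) : ℂ))
      = (((2 * π) ^ n / (√(1 + ε ^ 2)) ^ n : ℝ) : ℂ) := by
  sorry

/-- T5. The real regime `χ = iκ`: change of variables. -/
theorem T5_real {δ C c₀ : ℝ} {g : E n → E n} {A : E n → Mat n} (h : Nice δ C g A) {a b : ι → ℝ}
    (hab : Good c₀ a b) [Nonempty ι] {ε κ : ℝ} (hε : 0 < ε)
    (hκ : ∀ l, 0 < a l ^ 2 + b l ^ 2 + 2 * Real.cosh κ * (a l * b l))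
    {c' K' : ℝ} (hc' : 0 < c')
    (hb : ∀ x y : E n, (phase ε g a b (κ * Complex.I) x y).re ≤ K' - c' * (‖x‖ ^ 2 + ‖y‖ ^ 2)) :
    ∫ ω : E n × E n, Complex.exp (phase ε g a b (κ * Complex.I) ω.1 ω.2) *
        detf A a b (κ * Complex.I) ω.1 ω.2
      = ∫ ω : E n × E n, Complex.exp
          (-((ε : ℂ) / 2) * ((‖ω.1‖ ^ 2 + ‖ω.2‖ ^ 2 : ℝ) : ℂ)
            + Complex.I * ((⟪ω.1, ω.2⟫ : ℝ) : ℂ)) := by
  sorry

/-- T6a. Growth facts. -/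
theorem T6a_growth {δ C c₀ : ℝ} {g : E n → E n} {A : E n → Mat n} (h : Nice δ C g A)
    {a b : ι → ℝ} (hab : Good c₀ a b) :
    ∃ c > 0, ∃ K > 0, ∀ x y : E n,
      ‖x‖ ^ 2 + ‖Gx g a b x y‖ ^ 2 ≤ K * (1 + ‖x‖ ^ 2 + ‖y‖ ^ 2) ∧
      ‖y‖ ^ 2 + ‖Gy g a b x y‖ ^ 2 ≤ K * (1 + ‖x‖ ^ 2 + ‖y‖ ^ 2) ∧
      |⟪Gx g a b x y, Gy g a b x y⟫ - ⟪x, y⟫| ≤ K * (1 + ‖x‖ ^ 2 + ‖y‖ ^ 2) ∧
      |⟪x, Gx g a b x y⟫| ≤ K * (1 + ‖x‖ ^ 2 + ‖y‖ ^ 2) ∧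
      |⟪y, Gy g a b x y⟫| ≤ K * (1 + ‖x‖ ^ 2 + ‖y‖ ^ 2) ∧
      c * (1 + ‖x‖ ^ 2 + ‖y‖ ^ 2) - K ≤
        (‖x‖ ^ 2 + ‖Gx g a b x y‖ ^ 2) + (‖y‖ ^ 2 + ‖Gy g a b x y‖ ^ 2)
          + 2 * (⟪Gx g a b x y, Gy g a b x y⟫ - ⟪x, y⟫) ∧
      c * (1 + ‖x‖ ^ 2 + ‖y‖ ^ 2) - K ≤ ⟪x, Gx g a b x y⟫ + ⟪y, Gy g a b x y⟫ ∧
      Wf g a b x y = ⟪x, Gx g a b x y⟫ + ⟪y, Gy g a b x y⟫ := by
  sorry

/-- T6b. The scalar inequality. -/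
theorem T6b_scalar {c K : ℝ} (hc : 0 < c) (hK : 0 < K) :
    ∃ ε₀ > 0, ∀ ε, 0 < ε → ε ≤ ε₀ → ∃ η > 0, ∃ c' > 0, ∃ K' : ℝ,
      ∀ r κ p q s w₁ w₂ R : ℝ, 1 ≤ R → -η < r → r < π / 2 + η → |κ| < η →
        |p| ≤ K * R → |q| ≤ K * R → |s| ≤ K * R → |w₁| ≤ K * R → |w₂| ≤ K * R →
        c * R - K ≤ p + q + 2 * s → c * R - K ≤ w₁ + w₂ →
        -(ε / 2) * (Real.cos r * (Real.exp (-κ) * p + Real.exp κ * q) + 2 * s)
          - Real.sin r * (Real.exp (-κ) * w₁ + Real.exp κ * w₂) ≤ K' - c' * R := by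
  sorry

/-- T6. Domination of the phase on a complex neighbourhood of `[0, π/2]` (from T6a, T6b). -/
theorem T6_dom {δ C c₀ : ℝ} {g : E n → E n} {A : E n → Mat n} (h : Nice δ C g A)
    {a b : ι → ℝ} (hab : Good c₀ a b) :
    ∃ ε₀ > 0, ∀ ε, 0 < ε → ε ≤ ε₀ → ∃ η > 0, ∃ c' > 0, ∃ K' : ℝ,
      ∀ χ : ℂ, -η < χ.re → χ.re < π / 2 + η → |χ.im| < η → ∀ x y : E n,
        (phase ε g a b χ x y).re ≤ K' - c' * (‖x‖ ^ 2 + ‖y‖ ^ 2) := by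
  sorry

/-- T7. The complex identity (regularised), from T3, T4, T5, T6 and the identity theorem. -/
theorem T7_identity {δ C c₀ : ℝ} {g : E n → E n} {A : E n → Mat n} (h : Nice δ C g A)
    {a b : ι → ℝ} (hab : Good c₀ a b) [Nonempty ι] :
    ∃ ε₀ > 0, ∀ ε, 0 < ε → ε ≤ ε₀ →
      ∫ ω : E n × E n, Complex.exp (phase ε g a b ((π / 2 : ℝ) : ℂ) ω.1 ω.2) *
        detf A a b ((π / 2 : ℝ) : ℂ) ω.1 ω.2 = (((2 * π) ^ n / (√(1 + ε ^ 2)) ^ n : ℝ) : ℂ) := by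
  sorry

/-- T8. The holomorphic inequality `(2π)^n ≤ ∫ e^{-W} det(∑ (a_l²+b_l²) A(x_l))`,
from T7 (let `ε → 0`). -/
theorem T8_lower {δ C c₀ : ℝ} {g : E n → E n} {A : E n → Mat n} (h : Nice δ C g A)
    {a b : ι → ℝ} (hab : Good c₀ a b) [Nonempty ι] :
    ENNReal.ofReal ((2 * π) ^ n) ≤
      ∫⁻ ω : E n × E n, ENNReal.ofReal (Real.exp (-(Wf g a b ω.1 ω.2)) * detR A a b ω.1 ω.2) := by
  sorry

/-- T9. The functional inequality for nice pairs, from T1, T2, T8. -/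
theorem T9_functional {δ C : ℝ} {g : E n → E n} {A : E n → Mat n} (h : Nice δ C g A)
    (φ ψ : E n → ℝ) (hφ : ConvexOn ℝ univ φ) (hψ : ConvexOn ℝ univ ψ)
    (hφc : Continuous φ) (hψc : Continuous ψ)
    (hφe : ∀ x, φ (-x) = φ x) (hψe : ∀ x, ψ (-x) = ψ x)
    (hpair : ∀ x, φ x + ψ (g x) ≤ ⟪x, g x⟫) :
    ENNReal.ofReal (((3 : ℝ) ^ (3 / 4 : ℝ) * π / 2) ^ n) ≤
      (∫⁻ x, ENNReal.ofReal (Real.exp (-φ x))) * ∫⁻ x, ENNReal.ofReal (Real.exp (-ψ x)) := by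
  sorry

/-- T10. Smoothing of a sublinear Lipschitz function `f` (by convolution with an even bump). -/
theorem T10_smooth (f : E n → ℝ) (hf : ConvexOn ℝ univ f) (L : NNReal) (hL : LipschitzWith L f)
    (hsub : ∀ x h, f (x + h) ≤ f x + f h) (ε : ℝ) (hε : 0 < ε) :
    ∃ (u : E n → ℝ) (v : E n → E n) (B : E n → Mat n) (C : ℝ),
      ConvexOn ℝ univ u ∧ ((∀ x, f (-x) = f x) → ∀ x, u (-x) = u x) ∧
      (∀ x, |u x - f x| ≤ ε) ∧ (∀ x, HasFDerivAt u (innerSL ℝ (v x)) x) ∧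
      (∀ x h, ⟪v x, h⟫ ≤ f h) ∧ (∀ x, HasFDerivAt v (clm (B x)) x) ∧ Continuous B ∧
      (∀ x, (B x).PosSemidef) ∧ (∀ x i j, |B x i j| ≤ C) := by
  sorry

/-- T11. From T9 and T10: the regularised inequality for a body, `Q` = polar body. -/
theorem T11_regular (f : E n → ℝ) (hf : ConvexOn ℝ univ f) (L : NNReal) (hL : LipschitzWith L f)
    (hsub : ∀ x h, f (x + h) ≤ f x + f h) (heven : ∀ x, f (-x) = f x)
    (Q : Set (E n)) (hQc : Convex ℝ Q) (hQcl : IsClosed Q) (hQb : Bornology.IsBounded Q)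
    (hQ0 : (0 : E n) ∈ Q)
    (hQs : ∀ x ∈ Q, -x ∈ Q) (hfQ : ∀ v : E n, (∀ h, ⟪v, h⟫ ≤ f h) → v ∈ Q)
    (ε : ℝ) (hε : 0 < ε) :
    ENNReal.ofReal (((3 : ℝ) ^ (3 / 4 : ℝ) * π / 2) ^ n) ≤
      ENNReal.ofReal (Real.exp (2 * ε + f 0)) * (∫⁻ x, ENNReal.ofReal (Real.exp (-f x))) *
        ∫⁻ x : E n, ENNReal.ofReal (Real.exp (-(Metric.infDist x Q ^ 2 / (2 * ε)))) := by
  sorry

/-- T12a. `∫ e^{-‖x‖_K} = n! vol K`. -/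
theorem T12a_gauge (K : Set (E n)) (hK : Convex ℝ K) (hc : IsCompact K) (h0 : K ∈ 𝓝 (0 : E n)) :
    ∫⁻ x, ENNReal.ofReal (Real.exp (-gauge K x)) = (n.factorial : ℝ≥0∞) * volume K := by
  sorry

/-- T12b. The limit `ε → 0`. -/
theorem T12b_limit (Q : Set (E n)) (hQc : Convex ℝ Q) (hQ : IsCompact Q) (hne : Q.Nonempty) :
    Tendsto (fun ε : ℝ => ∫⁻ x : E n,
      ENNReal.ofReal (Real.exp (-(Metric.infDist x Q ^ 2 / (2 * ε))))) (𝓝[>] 0)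
      (𝓝 (volume Q)) := by
  sorry

/-- T13. The final theorem, from T11, T12a, T12b. -/
theorem T13_final (n : ℕ) (K : Set (E n)) (hK : Convex ℝ K) (hc : IsCompact K)
    (hi : (interior K).Nonempty) (hs : ∀ x ∈ K, -x ∈ K) :
    ENNReal.ofReal (((3 : ℝ) ^ (3 / 4 : ℝ) * π / 2) ^ n / n.factorial) ≤ volume K * volume (polar K) := by
  sorry

end Pool.Agent.H706R2.Mah
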