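import Pool.Agent.H706R2.Mah.Defs

/-!
# T12a: `∫ e^{-gauge K} = n! vol K`
-/

namespace Pool.Agent.H706R2.Mah

open MeasureTheory Real Set Filter Topology
open scoped RealInnerProductSpace ENNReal Pointwise

variable {n : ℕ}

theorem T12a_exp (c : ℝ) :
    ∫⁻ t in Ioi c, ENNReal.ofReal (Real.exp (-t)) = ENNReal.ofReal (Real.exp (-c)) := by
  have h1 : IntegrableOn (fun t : ℝ => Real.exp (-t)) (Ioi c) := by
    have := exp_neg_integrableOn_Ioi c one_pos
    simpa using this
  rw [← ofReal_integral_eq_lintegral_ofReal h1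
    (Filter.Eventually.of_forall fun t => (Real.exp_pos _).le), integral_exp_neg_Ioi]

theorem T12a_fact (n : ℕ) :
    ∫⁻ t in Ioi (0:ℝ), ENNReal.ofReal (Real.exp (-t)) * ENNReal.ofReal (t ^ n) =
      (n.factorial : ℝ≥0∞) := by
  have h0 : (0:ℝ) < (n:ℝ) + 1 := by positivity
  have h1 := Real.GammaIntegral_convergent h0
  have h2 := Real.Gamma_eq_integral h0
  have h3 : ∀ t ∈ Ioi (0:ℝ), Real.exp (-t) * t ^ ((n:ℝ) + 1 - 1) = Real.exp (-t) * t ^ n := by
    intro t ht
    rw [add_sub_cancel_right, Real.rpow_natCast]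
  have h4 : IntegrableOn (fun t : ℝ => Real.exp (-t) * t ^ n) (Ioi 0) :=
    h1.congr_fun h3 measurableSet_Ioi
  have h5 : ∫ t in Ioi (0:ℝ), Real.exp (-t) * t ^ n = n.factorial := by
    rw [← setIntegral_congr_fun measurableSet_Ioi h3, ← h2, Real.Gamma_nat_eq_factorial]
  calc ∫⁻ t in Ioi (0:ℝ), ENNReal.ofReal (Real.exp (-t)) * ENNReal.ofReal (t ^ n)
      = ∫⁻ t in Ioi (0:ℝ), ENNReal.ofReal (Real.exp (-t) * t ^ n) := by
        refine lintegral_congr fun t => ?_
        rw [ENNReal.ofReal_mul (Real.exp_pos _).le]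
    _ = ENNReal.ofReal (∫ t in Ioi (0:ℝ), Real.exp (-t) * t ^ n) := by
        rw [ofReal_integral_eq_lintegral_ofReal h4]
        refine (ae_restrict_iff' measurableSet_Ioi).2 (Filter.Eventually.of_forall fun t ht => ?_)
        have : (0:ℝ) < t := ht
        positivity
    _ = (n.factorial : ℝ≥0∞) := by
        rw [h5, ENNReal.ofReal_natCast]

/-- T12a. `∫ e^{-‖x‖_K} = n! vol K`. -/
theorem T12a_gauge (K : Set (E n)) (hK : Convex ℝ K) (hc : IsCompact K) (h0 : K ∈ 𝓝 (0 : E n)) :
    ∫⁻ x, ENNReal.ofReal (Real.exp (-gauge K x)) = (n.factorial : ℝ≥0∞) * volume K := by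
  have hg : Continuous (gauge K) := continuous_gauge hK h0
  have hgn : ∀ x, 0 ≤ gauge K x := fun x => gauge_nonneg x
  have hV : volume {x : E n | gauge K x < 1} = volume K := by
    rw [setOfPred_gauge_lt_one_eq_interior hK h0]
    refine le_antisymm (measure_mono interior_subset) ?_
    have h1 : K ⊆ interior K ∪ frontier K := by
      intro x hx
      rw [← closure_eq_interior_union_frontier]
      exact subset_closure hx
    calc volume K ≤ volume (interior K ∪ frontier K) := measure_mono h1
      _ ≤ volume (interior K) + volume (frontier K) := measure_union_le _ _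
      _ = volume (interior K) := by rw [hK.addHaar_frontier volume, add_zero]
  have hVt : ∀ t : ℝ, 0 < t → volume {x : E n | gauge K x < t} =
      ENNReal.ofReal (t ^ n) * volume K := by
    intro t ht
    have h1 : {x : E n | gauge K x < t} = t • {x : E n | gauge K x < 1} := by
      ext x
      rw [Set.mem_smul_set_iff_inv_smul_mem₀ ht.ne']
      simp only [Set.mem_ofPred_eq]
      rw [gauge_smul_of_nonneg (inv_nonneg.2 ht.le), smul_eq_mul, inv_mul_lt_iff₀ ht, mul_one]
    rw [h1, Measure.addHaar_smul, hV, finrank_euclideanSpace_fin, abs_of_pos (pow_pos ht n)]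
  have key : ∀ x : E n, ENNReal.ofReal (Real.exp (-gauge K x)) =
      ∫⁻ t in Ioi (0:ℝ), (if gauge K x < t then ENNReal.ofReal (Real.exp (-t)) else 0) := by
    intro x
    rw [← T12a_exp]
    have h1 : (fun t : ℝ => if gauge K x < t then ENNReal.ofReal (Real.exp (-t)) else 0) =
        (Ioi (gauge K x)).indicator (fun t => ENNReal.ofReal (Real.exp (-t))) := by
      ext t; simp [Set.indicator]
    rw [h1, lintegral_indicator measurableSet_Ioi, Measure.restrict_restrict measurableSet_Ioi]
    congr 2
    ext t
    simp only [Set.mem_inter_iff, Set.mem_Ioi]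
    constructor
    · intro h; exact ⟨h, lt_of_le_of_lt (hgn x) h⟩
    · exact fun h => h.1
  simp_rw [key]
  rw [lintegral_lintegral_swap]
  · have h2 : ∀ t ∈ Ioi (0:ℝ), ∫⁻ x : E n, (if gauge K x < t then
        ENNReal.ofReal (Real.exp (-t)) else 0) =
        (ENNReal.ofReal (Real.exp (-t)) * ENNReal.ofReal (t ^ n)) * volume K := by
      intro t ht
      have h1 : (fun x : E n => if gauge K x < t then ENNReal.ofReal (Real.exp (-t)) else 0) =
          ({x : E n | gauge K x < t}).indicator (fun _ => ENNReal.ofReal (Real.exp (-t))) := by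
        ext x; simp [Set.indicator]
      rw [h1, lintegral_indicator_const (measurableSet_lt hg.measurable measurable_const),
        hVt t ht, mul_assoc]
    rw [setLIntegral_congr_fun measurableSet_Ioi h2, lintegral_mul_const, T12a_fact]
    exact (Real.continuous_exp.comp continuous_neg).measurable.ennreal_ofReal.mul
      (continuous_pow n).measurable.ennreal_ofReal
  · refine Measurable.aemeasurable ?_
    refine Measurable.ite ?_ ?_ measurable_const
    · exact measurableSet_lt (hg.measurable.comp measurable_fst) measurable_snd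
    · exact ((Real.continuous_exp.comp continuous_neg).measurable.comp
        measurable_snd).ennreal_ofReal

end Pool.Agent.H706R2.Mah
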