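import Pool.Agent.H706R2.Mah.Defs

/-!
# T2: trace Jensen inequality for log det
-/

namespace Pool.Agent.H706R2.Mah

open MeasureTheory Real Set Filter Topology
open scoped RealInnerProductSpace ENNReal

open scoped ComplexOrder MatrixOrder in
/-- A positive definite matrix can be conjugated to the identity. -/
lemma T2_aux_C {n : ℕ} (S : Mat n) (hS : S.PosDef) :
    ∃ C : Mat n, C.conjTranspose * S * C = 1 := by
  classical
  obtain ⟨B, hB⟩ := CStarAlgebra.nonneg_iff_eq_star_mul_self.mp hS.posSemidef.nonneg
  rw [Matrix.star_eq_conjTranspose] at hB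
  have hdet : IsUnit B.det := by
    have h1 : IsUnit S.det := (Matrix.isUnit_iff_isUnit_det S).mp hS.isUnit
    rw [hB, Matrix.det_mul] at h1
    exact isUnit_of_mul_isUnit_right h1
  refine ⟨B⁻¹, ?_⟩
  have hBB : B * B⁻¹ = 1 := Matrix.mul_nonsing_inv B hdet
  calc (B⁻¹).conjTranspose * S * B⁻¹
      = (B * B⁻¹).conjTranspose * (B * B⁻¹) := by
        rw [hB, Matrix.conjTranspose_mul]
        simp only [Matrix.mul_assoc]
    _ = 1 := by rw [hBB]; simp

/-- The core inequality when the matrices sum to the identity. -/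
lemma T2_aux_one {n : ℕ} {ι : Type} [Fintype ι] (A : ι → Mat n)
    (hA : ∀ l, (A l).PosSemidef) (hS : ∑ l, A l = 1) (r : ι → ℝ) (hr : ∀ l, 0 < r l) :
    0 < (∑ l, r l • A l).det ∧
      ∑ l, (A l).trace * Real.log (r l) ≤ Real.log (∑ l, r l • A l).det := by
  classical
  set M : Mat n := ∑ l, r l • A l with hMdef
  have hM : M.IsHermitian := by
    rw [hMdef]
    have : M.PosSemidef := by
      rw [hMdef]
      exact Matrix.posSemidef_sum Finset.univ fun l _ => (hA l).smul (hr l).le
    exact this.1
  set U : Mat n := (hM.eigenvectorUnitary : Mat n) with hU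
  have hUU : U.conjTranspose * U = 1 := by
    have := (Unitary.mem_iff.mp hM.eigenvectorUnitary.2).1
    rwa [Matrix.star_eq_conjTranspose] at this
  have hUU' : U * U.conjTranspose = 1 := by
    have := (Unitary.mem_iff.mp hM.eigenvectorUnitary.2).2
    rwa [Matrix.star_eq_conjTranspose] at this
  have hdiag : U.conjTranspose * M * U = Matrix.diagonal hM.eigenvalues := by
    have := hM.conjStarAlgAut_star_eigenvectorUnitary
    rw [Unitary.conjStarAlgAut_star_apply, Matrix.star_eq_conjTranspose] at this
    exact this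
  let B : ι → Mat n := fun l => U.conjTranspose * A l * U
  have hB : ∀ l, (B l).PosSemidef := fun l => (hA l).conjTranspose_mul_mul_same U
  have hB0 : ∀ l i, 0 ≤ B l i i := fun l i => (hB l).diag_nonneg
  have hB1 : ∀ i, ∑ l, B l i i = 1 := by
    intro i
    have h1 : ∑ l, B l = 1 := by
      simp only [B]
      rw [← Finset.sum_mul, ← Finset.mul_sum, hS, Matrix.mul_one, hUU]
    have h2 := congrFun (congrFun h1 i) i
    rw [Matrix.sum_apply] at h2
    rw [h2, Matrix.one_apply_eq]
  have hm : ∀ i, hM.eigenvalues i = ∑ l, B l i i * r l := by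
    intro i
    have h1 : ∑ l, r l • B l = Matrix.diagonal hM.eigenvalues := by
      rw [← hdiag, hMdef]
      simp only [B]
      rw [Finset.mul_sum, Finset.sum_mul]
      refine Finset.sum_congr rfl fun l _ => ?_
      rw [Matrix.mul_smul, Matrix.smul_mul]
    have h2 := congrFun (congrFun h1 i) i
    rw [Matrix.sum_apply, Matrix.diagonal_apply_eq] at h2
    rw [← h2]
    refine Finset.sum_congr rfl fun l _ => ?_
    rw [Matrix.smul_apply, smul_eq_mul, mul_comm]
  have hmpos : ∀ i, 0 < hM.eigenvalues i := by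
    intro i
    rw [hm i]
    have hex : ∃ l, 0 < B l i i := by
      by_contra hne
      push Not at hne
      have h0 : ∑ l, B l i i ≤ 0 := Finset.sum_nonpos fun l _ => hne l
      rw [hB1 i] at h0
      norm_num at h0
    obtain ⟨l, hl⟩ := hex
    exact Finset.sum_pos' (fun l _ => mul_nonneg (hB0 l i) (hr l).le)
      ⟨l, Finset.mem_univ _, mul_pos hl (hr l)⟩
  have hdet : M.det = ∏ i, hM.eigenvalues i := by
    have := hM.det_eq_prod_eigenvalues
    simpa using this
  have htr : ∀ l, (A l).trace = ∑ i, B l i i := by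
    intro l
    have : (B l).trace = (A l).trace := by
      simp only [B]
      rw [Matrix.trace_mul_cycle, hUU', Matrix.one_mul]
    rw [← this]
    rfl
  constructor
  · rw [hdet]
    exact Finset.prod_pos fun i _ => hmpos i
  · rw [hdet, Real.log_prod (fun i _ => (hmpos i).ne')]
    have hswap : ∑ l, (A l).trace * Real.log (r l) = ∑ i, ∑ l, B l i i * Real.log (r l) := by
      rw [Finset.sum_comm]
      refine Finset.sum_congr rfl fun l _ => ?_
      rw [htr l, Finset.sum_mul]
    rw [hswap]
    refine Finset.sum_le_sum fun i _ => ?_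
    have hconc := strictConcaveOn_log_Ioi.concaveOn.le_map_sum (t := Finset.univ)
      (w := fun l => B l i i) (p := r) (fun l _ => hB0 l i) (hB1 i) (fun l _ => hr l)
    simp only [smul_eq_mul] at hconc
    rw [hm i]
    exact hconc

variable {n : ℕ} {ι : Type} [Fintype ι]

/-- T2. Trace Jensen inequality for log det. -/
theorem T2_logdet (A : ι → Mat n) (hA : ∀ l, (A l).PosSemidef) (hS : (∑ l, A l).PosDef) :
    ∃ q : ι → ℝ, (∀ l, 0 ≤ q l) ∧ ∑ l, q l = n ∧ ∀ r : ι → ℝ, (∀ l, 0 < r l) →
      0 < (∑ l, r l • A l).det ∧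
      Real.log (∑ l, A l).det + ∑ l, q l * Real.log (r l) ≤ Real.log (∑ l, r l • A l).det := by
  classical
  obtain ⟨C, hC⟩ := T2_aux_C _ hS
  set A' : ι → Mat n := fun l => C.conjTranspose * A l * C with hA'
  have hA'p : ∀ l, (A' l).PosSemidef := fun l => (hA l).conjTranspose_mul_mul_same C
  have hsum : ∑ l, A' l = 1 := by
    simp only [hA']
    rw [← Finset.sum_mul, ← Finset.mul_sum, hC]
  refine ⟨fun l => (A' l).trace, fun l => (hA'p l).trace_nonneg, ?_, ?_⟩
  · rw [← Matrix.trace_sum, hsum, Matrix.trace_one, Fintype.card_fin]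
  · intro r hr
    obtain ⟨h1, h2⟩ := T2_aux_one A' hA'p hsum r hr
    have hconj : ∑ l, r l • A' l = C.conjTranspose * (∑ l, r l • A l) * C := by
      simp only [hA']
      rw [Finset.mul_sum, Finset.sum_mul]
      refine Finset.sum_congr rfl fun l _ => ?_
      rw [Matrix.mul_smul, Matrix.smul_mul]
    have hd1 : (∑ l, r l • A' l).det = C.det ^ 2 * (∑ l, r l • A l).det := by
      rw [hconj, Matrix.det_mul, Matrix.det_mul, Matrix.det_conjTranspose]
      simp only [star_trivial]
      ring
    have hd2 : C.det ^ 2 * (∑ l, A l).det = 1 := by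
      have := congrArg Matrix.det hC
      rw [Matrix.det_mul, Matrix.det_mul, Matrix.det_conjTranspose, Matrix.det_one] at this
      simp only [star_trivial] at this
      linarith
    have hSpos : 0 < (∑ l, A l).det := hS.det_pos
    have hc2 : 0 < C.det ^ 2 := by
      by_contra hcon
      have : C.det ^ 2 ≤ 0 := not_lt.mp hcon
      nlinarith
    have hpos : 0 < (∑ l, r l • A l).det := by
      rw [hd1] at h1
      exact (mul_pos_iff_of_pos_left hc2).mp h1
    refine ⟨hpos, ?_⟩
    have hl1 : Real.log (∑ l, r l • A' l).det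
        = Real.log (C.det ^ 2) + Real.log (∑ l, r l • A l).det := by
      rw [hd1, Real.log_mul hc2.ne' hpos.ne']
    have hl2 : Real.log (C.det ^ 2) + Real.log (∑ l, A l).det = 0 := by
      rw [← Real.log_mul hc2.ne' hSpos.ne', hd2, Real.log_one]
    linarith

end Pool.Agent.H706R2.Mah
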