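import Pool.Agent.H706R2.Mah.Defs

/-!
# T3. Holomorphic dependence of integrals on a parameter
-/

set_option autoImplicit false

namespace Pool.Agent.H706R2.Mah

open MeasureTheory Real Set Filter Topology
open scoped RealInnerProductSpace ENNReal

theorem T3_holo {Ω : Type*} [MeasurableSpace Ω] {μ : Measure Ω} {U : Set ℂ} (hU : IsOpen U)
    (f : ℂ → Ω → ℂ) (bd : Ω → ℝ) (hbd : Integrable bd μ) (hle : ∀ z ∈ U, ∀ ω, ‖f z ω‖ ≤ bd ω)
    (hm : ∀ z ∈ U, AEStronglyMeasurable (f z) μ)
    (hd : ∀ ω, DifferentiableOn ℂ (fun z => f z ω) U) :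
    DifferentiableOn ℂ (fun z => ∫ ω, f z ω ∂μ) U := by
  intro z₀ hz₀
  obtain ⟨R, hR, hball⟩ := Metric.isOpen_iff.1 hU z₀ hz₀
  set r : ℝ := R / 3 with hr
  have hr0 : 0 < r := by positivity
  have hsub : ∀ z ∈ Metric.ball z₀ r, Metric.closedBall z r ⊆ U := by
    intro z hz w hw
    apply hball
    rw [Metric.mem_ball] at hz ⊢
    rw [Metric.mem_closedBall] at hw
    calc dist w z₀ ≤ dist w z + dist z z₀ := dist_triangle _ _ _
      _ < r + r := by linarith
      _ < R := by rw [hr]; linarith
  have hmemU : ∀ z ∈ Metric.ball z₀ r, z ∈ U := fun z hz =>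
    hsub z hz (Metric.mem_closedBall_self hr0.le)
  have hderiv : ∀ ω, ∀ z ∈ Metric.ball z₀ r,
      HasDerivAt (fun z => f z ω) (deriv (fun z => f z ω) z) z := by
    intro ω z hz
    exact ((hd ω).differentiableAt (hU.mem_nhds (hmemU z hz))).hasDerivAt
  have hmeas : AEStronglyMeasurable (fun ω => deriv (fun z => f z ω) z₀) μ := by
    -- limit of difference quotients
    have hseq : Tendsto (fun k : ℕ => ((r / (2 * ((k:ℝ) + 1)) : ℝ) : ℂ)) atTop (𝓝[≠] (0:ℂ)) := by
      rw [tendsto_nhdsWithin_iff]
      refine ⟨?_, Filter.Eventually.of_forall fun k => ?_⟩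
      · have h1 : Tendsto (fun k : ℕ => (r / (2 * ((k:ℝ) + 1)) : ℝ)) atTop (𝓝 0) := by
          have h2 : Tendsto (fun k : ℕ => 2 * ((k:ℝ) + 1)) atTop atTop := by
            apply Tendsto.const_mul_atTop (by norm_num)
            exact tendsto_atTop_add_const_right _ _ tendsto_natCast_atTop_atTop
          exact h2.const_div_atTop r
        have h3 := (Complex.continuous_ofReal.tendsto 0).comp h1
        rw [Complex.ofReal_zero] at h3
        exact h3
      · simp only [mem_compl_iff, mem_singleton_iff, Complex.ofReal_eq_zero]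
        positivity
    apply aestronglyMeasurable_of_tendsto_ae (u := (atTop : Filter ℕ))
      (f := fun (k : ℕ) ω => (((r / (2 * ((k:ℝ) + 1)) : ℝ) : ℂ))⁻¹ •
        (f (z₀ + ((r / (2 * ((k:ℝ) + 1)) : ℝ) : ℂ)) ω - f z₀ ω))
    · intro k
      have hA : AEStronglyMeasurable (fun ω =>
          f (z₀ + ((r / (2 * ((k:ℝ) + 1)) : ℝ) : ℂ)) ω - f z₀ ω) μ := by
        apply AEStronglyMeasurable.sub
        · apply hm
          apply hmemU
          rw [Metric.mem_ball, dist_eq_norm, add_sub_cancel_left, Complex.norm_real,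
            Real.norm_eq_abs, abs_of_pos (by positivity)]
          rw [div_lt_iff₀ (by positivity)]
          have : (0:ℝ) ≤ k := Nat.cast_nonneg k
          nlinarith
        · exact hm z₀ hz₀
      exact hA.const_smul (((r / (2 * ((k:ℝ) + 1)) : ℝ) : ℂ))⁻¹

    · refine Filter.Eventually.of_forall fun ω => ?_
      have h1 := (hderiv ω z₀ (Metric.mem_ball_self hr0)).tendsto_slope_zero
      exact h1.comp hseq
  have key := hasDerivAt_integral_of_dominated_loc_of_deriv_le (μ := μ) (𝕜 := ℂ)
    (F := f) (F' := fun z ω => deriv (fun z => f z ω) z) (x₀ := z₀)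
    (s := Metric.ball z₀ r) (bound := fun ω => bd ω / r)
    (Metric.ball_mem_nhds z₀ hr0)
    (by
      filter_upwards [hU.mem_nhds hz₀] with z hz using hm z hz)
    (hbd.mono' (hm z₀ hz₀) (Filter.Eventually.of_forall fun ω => hle z₀ hz₀ ω))
    hmeas
    (by
      refine Filter.Eventually.of_forall fun ω z hz => ?_
      apply Complex.norm_deriv_le_of_forall_mem_sphere_norm_le hr0
      · apply DifferentiableOn.diffContOnCl
        rw [closure_ball _ hr0.ne']
        exact (hd ω).mono (hsub z hz)
      · intro w hw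
        exact hle w (hsub z hz (Metric.sphere_subset_closedBall hw)) ω)
    (hbd.div_const r)
    (Filter.Eventually.of_forall fun ω z hz => hderiv ω z hz)
  exact key.2.differentiableAt.differentiableWithinAt

end Pool.Agent.H706R2.Mah
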