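import Mathlib
import Pool.Agent.H706R2.Mah.Defs

/-! T6b: the scalar inequality. -/

namespace Pool.Agent.H706R2.Mah

open MeasureTheory Real Set Filter Topology
open scoped RealInnerProductSpace ENNReal

private lemma mul_bound {a b A B : ℝ} (ha : |a| ≤ A) (hb : |b| ≤ B) : -(A * B) ≤ a * b ∧ a * b ≤ A * B := by
  have h1 : |a * b| ≤ A * B := by
    rw [abs_mul]
    exact mul_le_mul ha hb (abs_nonneg _) ((abs_nonneg _).trans ha)
  exact abs_le.mp h1

/-- T6b. The scalar inequality. -/
theorem T6b_scalar {c K : ℝ} (hc : 0 < c) (hK : 0 < K) :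
    ∃ ε₀ > 0, ∀ ε, 0 < ε → ε ≤ ε₀ → ∃ η > 0, ∃ c' > 0, ∃ K' : ℝ,
      ∀ r κ p q s w₁ w₂ R : ℝ, 1 ≤ R → -η < r → r < π / 2 + η → |κ| < η →
        |p| ≤ K * R → |q| ≤ K * R → |s| ≤ K * R → |w₁| ≤ K * R → |w₂| ≤ K * R →
        c * R - K ≤ p + q + 2 * s → c * R - K ≤ w₁ + w₂ →
        -(ε / 2) * (Real.cos r * (Real.exp (-κ) * p + Real.exp κ * q) + 2 * s)
          - Real.sin r * (Real.exp (-κ) * w₁ + Real.exp κ * w₂) ≤ K' - c' * R := by
  obtain ⟨τ, hτ0, hτ1, hτc⟩ : ∃ τ : ℝ, 0 < τ ∧ τ ≤ 1 ∧ 16 * K * τ ≤ c := by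
    refine ⟨min 1 (c / (16 * K)), lt_min one_pos (by positivity), min_le_left _ _, ?_⟩
    calc 16 * K * min 1 (c / (16 * K)) ≤ 16 * K * (c / (16 * K)) := by
          gcongr
          exact min_le_right _ _
      _ = c := by field_simp
  obtain ⟨s₀, hs0, hs1, hs2⟩ : ∃ s₀ : ℝ, 0 < s₀ ∧ s₀ ≤ Real.sin τ ∧ s₀ ≤ Real.cos 1 := by
    refine ⟨min (Real.sin τ) (Real.cos 1), lt_min ?_ Real.cos_one_pos, min_le_left _ _,
      min_le_right _ _⟩
    exact Real.sin_pos_of_pos_of_lt_pi hτ0 (by linarith [Real.pi_gt_three])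
  refine ⟨s₀ * c / (16 * K), by positivity, ?_⟩
  intro ε hε hε0
  have hε1 : 16 * K * ε ≤ s₀ * c := by
    rw [le_div_iff₀ (by positivity)] at hε0
    linarith
  obtain ⟨η, hη0, hητ, hηε⟩ : ∃ η : ℝ, 0 < η ∧ η ≤ τ ∧ 48 * K * η ≤ ε * c := by
    refine ⟨min τ (ε * c / (48 * K)), lt_min hτ0 (by positivity), min_le_left _ _, ?_⟩
    calc 48 * K * min τ (ε * c / (48 * K)) ≤ 48 * K * (ε * c / (48 * K)) := by
          gcongr
          exact min_le_right _ _
      _ = ε * c := by field_simp
  refine ⟨η, hη0, min (ε * c / 8) (s₀ * c / 4), by positivity, K + ε * K, ?_⟩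
  intro r κ p q s w₁ w₂ R hR hr1 hr2 hκ hp hq hs hw1 hw2 hP hW
  have hR0 : 0 < R := by linarith
  have hτcR : 16 * K * τ * R ≤ c * R := mul_le_mul_of_nonneg_right hτc hR0.le
  have hηεR : 48 * K * η * R ≤ ε * c * R := mul_le_mul_of_nonneg_right hηε hR0.le
  have hε1R : 16 * K * ε * R ≤ s₀ * c * R := mul_le_mul_of_nonneg_right hε1 hR0.le
  have hcR : 0 < c * R := mul_pos hc hR0
  have hKR : 0 < K * R := mul_pos hK hR0
  have hεK : 0 < ε * K := mul_pos hε hK
  have hεcR : 0 < ε * c * R := mul_pos (mul_pos hε hc) hR0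
  have hκ1 : |κ| ≤ 1 := by linarith
  have hκτ : |κ| ≤ τ := by linarith
  -- the exponentials
  set E₁ := Real.exp (-κ) with hE1
  set E₂ := Real.exp κ with hE2
  have hE1a : |E₁ - 1| ≤ 2 * τ := by
    have := Real.abs_exp_sub_one_le (x := -κ) (by rwa [abs_neg])
    rw [abs_neg] at this
    linarith
  have hE2a : |E₂ - 1| ≤ 2 * τ := by
    have := Real.abs_exp_sub_one_le (x := κ) hκ1
    linarith
  have hE1b : |E₁| ≤ 3 := by
    have := abs_le.mp hE1a
    rw [abs_le]
    constructor <;> linarith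
  have hE2b : |E₂| ≤ 3 := by
    have := abs_le.mp hE2a
    rw [abs_le]
    constructor <;> linarith
  -- second bracket
  have hb2 : c / 2 * R - K ≤ E₁ * w₁ + E₂ * w₂ := by
    have h1 := (mul_bound hE1a hw1).1
    have h2 := (mul_bound hE2a hw2).1
    have h3 : τ * (K * R) * 4 ≤ c / 4 * R := by linarith
    have h4 : E₁ * w₁ + E₂ * w₂ = (w₁ + w₂) + (E₁ - 1) * w₁ + (E₂ - 1) * w₂ := by ring
    rw [h4]
    linarith
  have hb2' : |E₁ * w₁ + E₂ * w₂| ≤ 6 * (K * R) := by
    have h1 := mul_bound hE1b hw1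
    have h2 := mul_bound hE2b hw2
    rw [abs_le]
    constructor <;> linarith
  have hb2pos : -K ≤ E₁ * w₁ + E₂ * w₂ := by
    have : 0 ≤ c / 2 * R := by positivity
    linarith
  have hcmin1 : min (ε * c / 8) (s₀ * c / 4) * R ≤ ε * c / 8 * R := by
    gcongr
    exact min_le_left _ _
  have hcmin2 : min (ε * c / 8) (s₀ * c / 4) * R ≤ s₀ * c / 4 * R := by
    gcongr
    exact min_le_right _ _
  rcases le_or_gt r τ with hrτ | hrτ
  · -- region A
    have hr : |r| ≤ τ := by
      rw [abs_le]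
      constructor <;> linarith
    have hr2 : r ^ 2 ≤ τ := by
      have h1 : r ^ 2 = |r| ^ 2 := (sq_abs r).symm
      have h2 := abs_nonneg r
      rw [h1]
      nlinarith
    have hcos : |Real.cos r - 1| ≤ τ / 2 := by
      rw [abs_le]
      constructor
      · have := Real.one_sub_sq_div_two_le_cos (x := r)
        linarith
      · have := Real.cos_le_one r
        linarith
    have hk1 : |Real.cos r * E₁ - 1| ≤ 4 * τ := by
      have h1 := mul_bound hcos hE1b
      have h2 := abs_le.mp hE1a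
      have h3 : Real.cos r * E₁ - 1 = (Real.cos r - 1) * E₁ + (E₁ - 1) := by ring
      rw [h3, abs_le]
      constructor <;> linarith
    have hk2 : |Real.cos r * E₂ - 1| ≤ 4 * τ := by
      have h1 := mul_bound hcos hE2b
      have h2 := abs_le.mp hE2a
      have h3 : Real.cos r * E₂ - 1 = (Real.cos r - 1) * E₂ + (E₂ - 1) := by ring
      rw [h3, abs_le]
      constructor <;> linarith
    have hb1 : c / 2 * R - K ≤ Real.cos r * (E₁ * p + E₂ * q) + 2 * s := by
      have h1 := (mul_bound hk1 hp).1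
      have h2 := (mul_bound hk2 hq).1
      have h3 : τ * (K * R) * 8 ≤ c / 2 * R := by linarith
      have h4 : Real.cos r * (E₁ * p + E₂ * q) + 2 * s =
        (p + q + 2 * s) + (Real.cos r * E₁ - 1) * p + (Real.cos r * E₂ - 1) * q := by ring
      rw [h4]
      linarith
    have hfirst : -(ε / 2) * (Real.cos r * (E₁ * p + E₂ * q) + 2 * s) ≤
        -(ε * c / 4) * R + ε * K / 2 := by
      have h1 := mul_le_mul_of_nonneg_left hb1 (by positivity : (0 : ℝ) ≤ ε / 2)
      linarith
    have hsecond : -(Real.sin r * (E₁ * w₁ + E₂ * w₂)) ≤ K + ε * c / 8 * R := by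
      have hsin1 := Real.sin_le_one r
      rcases le_or_gt 0 r with h0 | h0
      · have hs : 0 ≤ Real.sin r :=
          Real.sin_nonneg_of_nonneg_of_le_pi h0 (by linarith [Real.pi_gt_three])
        have h5 := mul_le_mul_of_nonneg_left hb2pos hs
        have h6 := mul_le_mul_of_nonneg_right hsin1 hK.le
        linarith
      · have hs : |Real.sin r| ≤ η := by
          have h8 := Real.abs_sin_le_abs (x := r)
          have h9 : |r| ≤ η := by
            rw [abs_of_neg h0]
            linarith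
          exact h8.trans h9
        have h5 := (mul_bound hs hb2').1
        have h6 : η * (6 * (K * R)) ≤ ε * c / 8 * R := by linarith
        linarith
    linarith
  · -- region B
    have hsin : s₀ ≤ Real.sin r := by
      rcases le_or_gt r (π / 2) with h1 | h1
      · refine hs1.trans ?_
        exact Real.sin_le_sin_of_le_of_le_pi_div_two (by linarith [Real.pi_gt_three]) h1 hrτ.le
      · refine hs2.trans ?_
        have h2 : Real.sin r = Real.cos (r - π / 2) := by
          rw [Real.cos_sub_pi_div_two]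
        rw [h2]
        exact Real.cos_le_cos_of_nonneg_of_le_pi (by linarith) (by linarith [Real.pi_gt_three])
          (by linarith)
    have hsin1 := Real.sin_le_one r
    have hsecond : -(Real.sin r * (E₁ * w₁ + E₂ * w₂)) ≤ -(s₀ * c / 2) * R + K := by
      have h0 : 0 ≤ Real.sin r := by linarith
      have h1 := mul_le_mul_of_nonneg_left hb2 h0
      have h2 := mul_le_mul_of_nonneg_right hsin1 hK.le
      have h3 := mul_le_mul_of_nonneg_right hsin hcR.le
      linarith
    have hcos : |Real.cos r| ≤ 1 := Real.abs_cos_le_one r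
    have hin : |E₁ * p + E₂ * q| ≤ 6 * (K * R) := by
      have h1 := mul_bound hE1b hp
      have h2 := mul_bound hE2b hq
      rw [abs_le]
      constructor <;> linarith
    have hfirst : -(ε / 2) * (Real.cos r * (E₁ * p + E₂ * q) + 2 * s) ≤ s₀ * c / 4 * R := by
      have h1 := (mul_bound hcos hin).1
      have h2 := (abs_le.mp hs).1
      have h3 : -(8 * (K * R)) ≤ Real.cos r * (E₁ * p + E₂ * q) + 2 * s := by linarith
      have h4 := mul_le_mul_of_nonneg_left h3 (by positivity : (0 : ℝ) ≤ ε / 2)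
      linarith
    linarith

end Pool.Agent.H706R2.Mah
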