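import Pool.Agent.H706R2.Mah.Defs

/-!
# T6: the real part of the phase
-/

namespace Pool.Agent.H706R2.Mah

open MeasureTheory Real Set Filter Topology
open scoped RealInnerProductSpace ENNReal

variable {n : ℕ} {ι : Type} [Fintype ι]

theorem T6_exp_re (χ : ℂ) : (Complex.exp (Complex.I * χ)).re = Real.exp (-χ.im) * Real.cos χ.re := by
  rw [Complex.exp_re]
  simp

theorem T6_exp_im (χ : ℂ) : (Complex.exp (Complex.I * χ)).im = Real.exp (-χ.im) * Real.sin χ.re := by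
  rw [Complex.exp_im]
  simp

theorem T6_exp_re' (χ : ℂ) :
    (Complex.exp (-(Complex.I * χ))).re = Real.exp χ.im * Real.cos χ.re := by
  rw [Complex.exp_re]
  simp

theorem T6_exp_im' (χ : ℂ) :
    (Complex.exp (-(Complex.I * χ))).im = -(Real.exp χ.im * Real.sin χ.re) := by
  rw [Complex.exp_im]
  simp

/-- the real part of the phase -/
theorem T6_phase_re (ε : ℝ) (g : E n → E n) (a b : ι → ℝ) (χ : ℂ) (x y : E n) :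
    (phase ε g a b χ x y).re =
      -(ε / 2) * (Real.cos χ.re * (Real.exp (-χ.im) * (‖x‖ ^ 2 + ‖Gx g a b x y‖ ^ 2)
          + Real.exp χ.im * (‖y‖ ^ 2 + ‖Gy g a b x y‖ ^ 2))
          + 2 * (⟪Gx g a b x y, Gy g a b x y⟫ - ⟪x, y⟫))
        - Real.sin χ.re * (Real.exp (-χ.im) * ⟪x, Gx g a b x y⟫
          + Real.exp χ.im * ⟪y, Gy g a b x y⟫) := by
  have h1 : ∀ z : ℂ, (-((ε : ℂ) / 2) * z).re = -(ε / 2) * z.re := by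
    intro z
    have : (-((ε : ℂ) / 2)) = ((-(ε / 2) : ℝ) : ℂ) := by push_cast; ring
    rw [this, Complex.re_ofReal_mul]
  have h2 : ∀ z : ℂ, (Complex.I * z).re = -z.im := by
    intro z
    simp
  have h3 : (2 : ℂ) = ((2 : ℝ) : ℂ) := by norm_cast
  unfold phase
  rw [Complex.add_re, h1, h2, h3]
  simp only [Complex.add_re, Complex.sub_im, Complex.add_im, Complex.re_mul_ofReal,
    Complex.im_mul_ofReal, Complex.ofReal_re, Complex.ofReal_im,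
    T6_exp_re, T6_exp_re', T6_exp_im, T6_exp_im']
  ring

/-- T6 from T6a and T6b -/
theorem T6_dom_of {g : E n → E n} {a b : ι → ℝ}
    (h6a : ∃ c > 0, ∃ K > 0, ∀ x y : E n,
      ‖x‖ ^ 2 + ‖Gx g a b x y‖ ^ 2 ≤ K * (1 + ‖x‖ ^ 2 + ‖y‖ ^ 2) ∧
      ‖y‖ ^ 2 + ‖Gy g a b x y‖ ^ 2 ≤ K * (1 + ‖x‖ ^ 2 + ‖y‖ ^ 2) ∧
      |⟪Gx g a b x y, Gy g a b x y⟫ - ⟪x, y⟫| ≤ K * (1 + ‖x‖ ^ 2 + ‖y‖ ^ 2) ∧
      |⟪x, Gx g a b x y⟫| ≤ K * (1 + ‖x‖ ^ 2 + ‖y‖ ^ 2) ∧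
      |⟪y, Gy g a b x y⟫| ≤ K * (1 + ‖x‖ ^ 2 + ‖y‖ ^ 2) ∧
      c * (1 + ‖x‖ ^ 2 + ‖y‖ ^ 2) - K ≤
        (‖x‖ ^ 2 + ‖Gx g a b x y‖ ^ 2) + (‖y‖ ^ 2 + ‖Gy g a b x y‖ ^ 2)
          + 2 * (⟪Gx g a b x y, Gy g a b x y⟫ - ⟪x, y⟫) ∧
      c * (1 + ‖x‖ ^ 2 + ‖y‖ ^ 2) - K ≤ ⟪x, Gx g a b x y⟫ + ⟪y, Gy g a b x y⟫ ∧
      Wf g a b x y = ⟪x, Gx g a b x y⟫ + ⟪y, Gy g a b x y⟫)
    (h6b : ∀ {c K : ℝ}, 0 < c → 0 < K →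
      ∃ ε₀ > 0, ∀ ε, 0 < ε → ε ≤ ε₀ → ∃ η > 0, ∃ c' > 0, ∃ K' : ℝ,
      ∀ r κ p q s w₁ w₂ R : ℝ, 1 ≤ R → -η < r → r < π / 2 + η → |κ| < η →
        |p| ≤ K * R → |q| ≤ K * R → |s| ≤ K * R → |w₁| ≤ K * R → |w₂| ≤ K * R →
        c * R - K ≤ p + q + 2 * s → c * R - K ≤ w₁ + w₂ →
        -(ε / 2) * (Real.cos r * (Real.exp (-κ) * p + Real.exp κ * q) + 2 * s)
          - Real.sin r * (Real.exp (-κ) * w₁ + Real.exp κ * w₂) ≤ K' - c' * R) :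
    ∃ ε₀ > 0, ∀ ε, 0 < ε → ε ≤ ε₀ → ∃ η > 0, ∃ c' > 0, ∃ K' : ℝ,
      ∀ χ : ℂ, -η < χ.re → χ.re < π / 2 + η → |χ.im| < η → ∀ x y : E n,
        (phase ε g a b χ x y).re ≤ K' - c' * (‖x‖ ^ 2 + ‖y‖ ^ 2) := by
  obtain ⟨c, hc, K, hK, hb⟩ := h6a
  obtain ⟨ε₀, hε₀, H⟩ := h6b hc hK
  refine ⟨ε₀, hε₀, fun ε hε hεε => ?_⟩
  obtain ⟨η, hη, c', hc', K', H⟩ := H ε hε hεε
  refine ⟨η, hη, c', hc', K', fun χ h1 h2 h3 x y => ?_⟩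
  obtain ⟨b1, b2, b3, b4, b5, b6, b7, -⟩ := hb x y
  have hR : 1 ≤ 1 + ‖x‖ ^ 2 + ‖y‖ ^ 2 := by nlinarith [sq_nonneg ‖x‖, sq_nonneg ‖y‖]
  have hp : |‖x‖ ^ 2 + ‖Gx g a b x y‖ ^ 2| ≤ K * (1 + ‖x‖ ^ 2 + ‖y‖ ^ 2) := by
    rw [abs_of_nonneg (by positivity)]
    exact b1
  have hq : |‖y‖ ^ 2 + ‖Gy g a b x y‖ ^ 2| ≤ K * (1 + ‖x‖ ^ 2 + ‖y‖ ^ 2) := by
    rw [abs_of_nonneg (by positivity)]
    exact b2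
  have := H χ.re χ.im _ _ _ _ _ _ hR h1 h2 h3 hp hq b3 b4 b5 b6 b7
  rw [T6_phase_re]
  nlinarith

end Pool.Agent.H706R2.Mah
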