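import Pool.Agent.H706R2.Mah.T6a
import Pool.Agent.H706R2.Mah.T6b
import Pool.Agent.H706R2.Mah.T6c

namespace Pool.Agent.H706R2.Mah

open MeasureTheory Real Set Filter Topology
open scoped RealInnerProductSpace ENNReal

variable {n : ℕ} {ι : Type} [Fintype ι]

/-- T6. Domination of the phase on a complex neighbourhood of `[0, π/2]` (from T6a, T6b). -/
theorem T6_dom {δ C c₀ : ℝ} {g : E n → E n} {A : E n → Mat n} (h : Nice δ C g A)
    {a b : ι → ℝ} (hab : Good c₀ a b) :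
    ∃ ε₀ > 0, ∀ ε, 0 < ε → ε ≤ ε₀ → ∃ η > 0, ∃ c' > 0, ∃ K' : ℝ,
      ∀ χ : ℂ, -η < χ.re → χ.re < π / 2 + η → |χ.im| < η → ∀ x y : E n,
        (phase ε g a b χ x y).re ≤ K' - c' * (‖x‖ ^ 2 + ‖y‖ ^ 2) :=
  T6_dom_of (T6a_growth h hab) (fun hc hK => T6b_scalar hc hK)

end Pool.Agent.H706R2.Mah
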