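import Pool.Agent.H706R2.Mah.Defs

/-!
# T6a: growth facts
-/

namespace Pool.Agent.H706R2.Mah

open MeasureTheory Real Set Filter Topology
open scoped RealInnerProductSpace ENNReal

variable {n : ℕ} {ι : Type} [Fintype ι]

/-- Strong monotonicity of `g`, compared with `0`. -/
theorem T6a_mono {δ C : ℝ} {g : E n → E n} {A : E n → Mat n} (h : Nice δ C g A) (x : E n) :
    δ * ‖x‖ ^ 2 - C * ‖x‖ ≤ ⟪x, g x⟫ := by
  have hder : ∀ t : ℝ, HasDerivAt (fun t : ℝ => ⟪x, g (t • x)⟫)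
      ⟪x, clm (A (t • x)) x⟫ t := by
    intro t
    have h1 : HasDerivAt (fun t : ℝ => t • x) x t := by
      simpa using (hasDerivAt_id t).smul_const x
    have h2 : HasDerivAt (fun t : ℝ => g (t • x)) (clm (A (t • x)) x) t :=
      (h.deriv (t • x)).comp_hasDerivAt t h1
    have h3 := (hasDerivAt_const t x).inner ℝ h2
    simpa using h3
  have hdiff : Differentiable ℝ (fun t : ℝ => ⟪x, g (t • x)⟫) := fun t => (hder t).differentiableAt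
  have h4 : δ * ‖x‖ ^ 2 * (1 - 0) ≤ ⟪x, g ((1 : ℝ) • x)⟫ - ⟪x, g ((0 : ℝ) • x)⟫ := by
    refine mul_sub_le_image_sub_of_le_deriv hdiff (fun t => ?_) (zero_le_one)
    rw [(hder t).deriv]
    exact h.low _ _
  have h5 : |⟪x, g 0⟫| ≤ ‖x‖ * ‖g 0‖ := abs_real_inner_le_norm x (g 0)
  have h6 : ‖g (0 : E n)‖ ≤ C := by
    have := h.growth 0
    simpa using this
  have h7 : ‖x‖ * ‖g 0‖ ≤ C * ‖x‖ := by
    rw [mul_comm]
    exact mul_le_mul_of_nonneg_right h6 (norm_nonneg _)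
  have h8 := neg_abs_le ⟪x, g 0⟫
  rw [one_smul, zero_smul] at h4
  linarith

theorem T6a_span {c₀ : ℝ} {a b : ι → ℝ} (hab : Good c₀ a b) (x y : E n) :
    c₀ * (‖x‖ ^ 2 + ‖y‖ ^ 2) ≤ ∑ l, ‖pt a b x y l‖ ^ 2 := by
  have h1 : ∀ l, ‖pt a b x y l‖ ^ 2 = ∑ i, (a l * x i + b l * y i) ^ 2 := by
    intro l
    rw [EuclideanSpace.real_norm_sq_eq]
    rfl
  simp_rw [h1]
  rw [Finset.sum_comm, EuclideanSpace.real_norm_sq_eq, EuclideanSpace.real_norm_sq_eq,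
    ← Finset.sum_add_distrib, Finset.mul_sum]
  exact Finset.sum_le_sum fun i _ => hab.span (x i) (y i)

theorem T6a_W (g : E n → E n) (a b : ι → ℝ) (x y : E n) :
    Wf g a b x y = ⟪x, Gx g a b x y⟫ + ⟪y, Gy g a b x y⟫ := by
  unfold Wf Gx Gy
  rw [inner_sum, inner_sum, ← Finset.sum_add_distrib]
  refine Finset.sum_congr rfl fun l _ => ?_
  conv_lhs => rw [show pt a b x y l = a l • x + b l • y from rfl]
  rw [inner_add_left, real_inner_smul_left, real_inner_smul_left, real_inner_smul_right,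
    real_inner_smul_right]
  rfl

theorem T6a_growth {δ C c₀ : ℝ} {g : E n → E n} {A : E n → Mat n} (h : Nice δ C g A)
    {a b : ι → ℝ} (hab : Good c₀ a b) :
    ∃ c > 0, ∃ K > 0, ∀ x y : E n,
      ‖x‖ ^ 2 + ‖Gx g a b x y‖ ^ 2 ≤ K * (1 + ‖x‖ ^ 2 + ‖y‖ ^ 2) ∧
      ‖y‖ ^ 2 + ‖Gy g a b x y‖ ^ 2 ≤ K * (1 + ‖x‖ ^ 2 + ‖y‖ ^ 2) ∧
      |⟪Gx g a b x y, Gy g a b x y⟫ - ⟪x, y⟫| ≤ K * (1 + ‖x‖ ^ 2 + ‖y‖ ^ 2) ∧
      |⟪x, Gx g a b x y⟫| ≤ K * (1 + ‖x‖ ^ 2 + ‖y‖ ^ 2) ∧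
      |⟪y, Gy g a b x y⟫| ≤ K * (1 + ‖x‖ ^ 2 + ‖y‖ ^ 2) ∧
      c * (1 + ‖x‖ ^ 2 + ‖y‖ ^ 2) - K ≤
        (‖x‖ ^ 2 + ‖Gx g a b x y‖ ^ 2) + (‖y‖ ^ 2 + ‖Gy g a b x y‖ ^ 2)
          + 2 * (⟪Gx g a b x y, Gy g a b x y⟫ - ⟪x, y⟫) ∧
      c * (1 + ‖x‖ ^ 2 + ‖y‖ ^ 2) - K ≤ ⟪x, Gx g a b x y⟫ + ⟪y, Gy g a b x y⟫ ∧
      Wf g a b x y = ⟪x, Gx g a b x y⟫ + ⟪y, Gy g a b x y⟫ := by
  have hδ := h.δpos
  have hC := h.Cpos
  have hc₀ := hab.pos
  set M : ℝ := ∑ l, (|a l| + |b l|) with hM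
  have hM0 : 0 ≤ M := Finset.sum_nonneg fun l _ => add_nonneg (abs_nonneg _) (abs_nonneg _)
  set G : ℝ := M * (C * (1 + M)) with hG
  have hG0 : 0 ≤ G := by positivity
  set c₁ : ℝ := δ * c₀ / 2 with hc₁
  have hc₁0 : 0 < c₁ := by positivity
  set K₁ : ℝ := 2 * c₁ + (C * M) ^ 2 / (4 * c₁) with hK₁
  have hK₁0 : 0 ≤ K₁ := by positivity
  refine ⟨min c₁ (c₁ ^ 2 / (1 + G ^ 2)), by positivity, 1 + G ^ 2 + G + K₁ + 2 * c₁ * K₁,
    by positivity, ?_⟩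
  intro x y
  set R : ℝ := 1 + ‖x‖ ^ 2 + ‖y‖ ^ 2 with hR
  have hx2 : 0 ≤ ‖x‖ ^ 2 := by positivity
  have hy2 : 0 ≤ ‖y‖ ^ 2 := by positivity
  have hR1 : 1 ≤ R := by rw [hR]; linarith
  have hR0 : 0 ≤ R := by linarith
  set r : ℝ := √R with hr
  have hr2 : r ^ 2 = R := Real.sq_sqrt hR0
  have hr1 : 1 ≤ r := by rw [hr]; exact Real.one_le_sqrt.mpr hR1
  have hr0 : 0 ≤ r := by linarith
  have hxr : ‖x‖ ≤ r := by
    apply abs_le_of_sq_le_sq' _ hr0 |>.2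
    rw [hr2, hR]; linarith
  have hyr : ‖y‖ ≤ r := by
    apply abs_le_of_sq_le_sq' _ hr0 |>.2
    rw [hr2, hR]; linarith
  -- the points
  have hpt : ∀ l, ‖pt a b x y l‖ ≤ (|a l| + |b l|) * r := by
    intro l
    calc ‖pt a b x y l‖ ≤ ‖a l • x‖ + ‖b l • y‖ := norm_add_le _ _
      _ = |a l| * ‖x‖ + |b l| * ‖y‖ := by rw [norm_smul, norm_smul, Real.norm_eq_abs, Real.norm_eq_abs]
      _ ≤ |a l| * r + |b l| * r := by
          gcongr
      _ = (|a l| + |b l|) * r := by ring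
  have hle : ∀ l, |a l| + |b l| ≤ M := fun l =>
    Finset.single_le_sum (f := fun l => |a l| + |b l|)
      (fun i _ => add_nonneg (abs_nonneg _) (abs_nonneg _)) (Finset.mem_univ l)
  have hg : ∀ l, ‖g (pt a b x y l)‖ ≤ C * (1 + M) * r := by
    intro l
    calc ‖g (pt a b x y l)‖ ≤ C * (1 + ‖pt a b x y l‖) := h.growth _
      _ ≤ C * (r + M * r) := by
          have h1 := hpt l
          have h2 := mul_le_mul_of_nonneg_right (hle l) hr0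
          gcongr
          exact h1.trans h2
      _ = C * (1 + M) * r := by ring
  have hGx : ‖Gx g a b x y‖ ≤ G * r := by
    calc ‖Gx g a b x y‖ ≤ ∑ l, ‖a l • g (pt a b x y l)‖ := norm_sum_le _ _
      _ ≤ ∑ l, (|a l| + |b l|) * (C * (1 + M) * r) := by
          refine Finset.sum_le_sum fun l _ => ?_
          rw [norm_smul, Real.norm_eq_abs]
          exact mul_le_mul (by linarith [abs_nonneg (b l)]) (hg l) (norm_nonneg _)
            (add_nonneg (abs_nonneg _) (abs_nonneg _))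
      _ = G * r := by rw [← Finset.sum_mul, hG]; ring
  have hGy : ‖Gy g a b x y‖ ≤ G * r := by
    calc ‖Gy g a b x y‖ ≤ ∑ l, ‖b l • g (pt a b x y l)‖ := norm_sum_le _ _
      _ ≤ ∑ l, (|a l| + |b l|) * (C * (1 + M) * r) := by
          refine Finset.sum_le_sum fun l _ => ?_
          rw [norm_smul, Real.norm_eq_abs]
          exact mul_le_mul (by linarith [abs_nonneg (a l)]) (hg l) (norm_nonneg _)
            (add_nonneg (abs_nonneg _) (abs_nonneg _))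
      _ = G * r := by rw [← Finset.sum_mul, hG]; ring
  have hW := T6a_W g a b x y
  -- lower bound for W
  have hWlow : c₁ * R - K₁ ≤ Wf g a b x y := by
    have h1 : ∑ l, (δ * ‖pt a b x y l‖ ^ 2 - C * ‖pt a b x y l‖) ≤ Wf g a b x y :=
      Finset.sum_le_sum fun l _ => T6a_mono h _
    rw [Finset.sum_sub_distrib, ← Finset.mul_sum, ← Finset.mul_sum] at h1
    have h2 : ∑ l, ‖pt a b x y l‖ ≤ M * r := by
      calc ∑ l, ‖pt a b x y l‖ ≤ ∑ l, (|a l| + |b l|) * r := Finset.sum_le_sum fun l _ => hpt l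
        _ = M * r := by rw [← Finset.sum_mul]
    have h3 := mul_le_mul_of_nonneg_left (T6a_span hab x y) hδ.le
    have h4 := mul_le_mul_of_nonneg_left h2 hC.le
    have h5 : C * (M * r) ≤ c₁ * R + (C * M) ^ 2 / (4 * c₁) := by
      rw [← hr2, ← sub_nonneg]
      have : c₁ * r ^ 2 + (C * M) ^ 2 / (4 * c₁) - C * (M * r)
          = (2 * c₁ * r - C * M) ^ 2 / (4 * c₁) := by
        field_simp
        ring
      rw [this]
      positivity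
    have h6 : δ * (c₀ * (‖x‖ ^ 2 + ‖y‖ ^ 2)) = 2 * c₁ * (R - 1) := by
      rw [hc₁, hR]; ring
    rw [h6] at h3
    rw [hK₁]
    linarith
  -- Gx, Gy squares
  have hGx2 : ‖Gx g a b x y‖ ^ 2 ≤ G ^ 2 * R := by
    rw [← hr2, ← mul_pow]
    exact pow_le_pow_left₀ (norm_nonneg _) hGx 2
  have hGy2 : ‖Gy g a b x y‖ ^ 2 ≤ G ^ 2 * R := by
    rw [← hr2, ← mul_pow]
    exact pow_le_pow_left₀ (norm_nonneg _) hGy 2
  have hxR : ‖x‖ ^ 2 ≤ R := by rw [hR]; linarith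
  have hyR : ‖y‖ ^ 2 ≤ R := by rw [hR]; linarith
  have hGG : |⟪Gx g a b x y, Gy g a b x y⟫| ≤ G ^ 2 * R := by
    calc |⟪Gx g a b x y, Gy g a b x y⟫| ≤ ‖Gx g a b x y‖ * ‖Gy g a b x y‖ :=
          abs_real_inner_le_norm _ _
      _ ≤ (G * r) * (G * r) := mul_le_mul hGx hGy (norm_nonneg _) (by positivity)
      _ = G ^ 2 * R := by rw [← hr2]; ring
  have hxy : |⟪x, y⟫| ≤ R := by
    calc |⟪x, y⟫| ≤ ‖x‖ * ‖y‖ := abs_real_inner_le_norm _ _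
      _ ≤ r * r := mul_le_mul hxr hyr (norm_nonneg _) hr0
      _ = R := by rw [← hr2]; ring
  have hxG : |⟪x, Gx g a b x y⟫| ≤ G * R := by
    calc |⟪x, Gx g a b x y⟫| ≤ ‖x‖ * ‖Gx g a b x y‖ := abs_real_inner_le_norm _ _
      _ ≤ r * (G * r) := mul_le_mul hxr hGx (norm_nonneg _) hr0
      _ = G * R := by rw [← hr2]; ring
  have hyG : |⟪y, Gy g a b x y⟫| ≤ G * R := by
    calc |⟪y, Gy g a b x y⟫| ≤ ‖y‖ * ‖Gy g a b x y‖ := abs_real_inner_le_norm _ _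
      _ ≤ r * (G * r) := mul_le_mul hyr hGy (norm_nonneg _) hr0
      _ = G * R := by rw [← hr2]; ring
  have hKR : 0 ≤ (K₁ + 2 * c₁ * K₁) * R := by positivity
  have hGR : 0 ≤ G * R := by positivity
  have hG2R : 0 ≤ G ^ 2 * R := by positivity
  -- the sum
  set P : ℝ := ‖Gx g a b x y + Gy g a b x y‖ with hP
  set Q : ℝ := ‖x - y‖ with hQ
  have hP0 : 0 ≤ P := norm_nonneg _
  have hQ0 : 0 ≤ Q := norm_nonneg _
  have hPQ : (‖x‖ ^ 2 + ‖Gx g a b x y‖ ^ 2) + (‖y‖ ^ 2 + ‖Gy g a b x y‖ ^ 2)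
          + 2 * (⟪Gx g a b x y, Gy g a b x y⟫ - ⟪x, y⟫) = P ^ 2 + Q ^ 2 := by
    rw [hP, hQ, @norm_add_sq_real, @norm_sub_sq_real]
    ring
  have hkey : c₁ * R - K₁ ≤ r * (P + G * Q) := by
    have h1 : 2 * Wf g a b x y = ⟪Gx g a b x y + Gy g a b x y, x + y⟫
        + ⟪Gx g a b x y - Gy g a b x y, x - y⟫ := by
      rw [hW, inner_add_left, inner_add_right, inner_add_right, inner_sub_left, inner_sub_right,
        inner_sub_right, real_inner_comm (Gx g a b x y) x, real_inner_comm (Gy g a b x y) y]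
      ring
    have h2 : ⟪Gx g a b x y + Gy g a b x y, x + y⟫ ≤ P * (2 * r) := by
      calc ⟪Gx g a b x y + Gy g a b x y, x + y⟫ ≤ P * ‖x + y‖ := real_inner_le_norm _ _
        _ ≤ P * (2 * r) := by
            gcongr
            calc ‖x + y‖ ≤ ‖x‖ + ‖y‖ := norm_add_le _ _
              _ ≤ 2 * r := by linarith
    have h3 : ⟪Gx g a b x y - Gy g a b x y, x - y⟫ ≤ (2 * (G * r)) * Q := by
      calc ⟪Gx g a b x y - Gy g a b x y, x - y⟫ ≤ ‖Gx g a b x y - Gy g a b x y‖ * Q :=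
            real_inner_le_norm _ _
        _ ≤ (2 * (G * r)) * Q := by
            gcongr
            calc ‖Gx g a b x y - Gy g a b x y‖ ≤ ‖Gx g a b x y‖ + ‖Gy g a b x y‖ := norm_sub_le _ _
              _ ≤ 2 * (G * r) := by linarith
    have h4 : r * (P + G * Q) = (P * (2 * r) + (2 * (G * r)) * Q) / 2 := by ring
    rw [h4]
    linarith
  have hkey2 : r * (P + G * Q) ≤ c₁ / 2 * R + (1 + G ^ 2) / (2 * c₁) * (P ^ 2 + Q ^ 2) := by
    have h1 : r * (P + G * Q) ≤ c₁ / 2 * R + (P + G * Q) ^ 2 / (2 * c₁) := by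
      rw [← hr2, ← sub_nonneg]
      have : c₁ / 2 * r ^ 2 + (P + G * Q) ^ 2 / (2 * c₁) - r * (P + G * Q)
          = (c₁ * r - (P + G * Q)) ^ 2 / (2 * c₁) := by
        field_simp
        ring
      rw [this]
      positivity
    have h2 : (P + G * Q) ^ 2 / (2 * c₁) ≤ (1 + G ^ 2) / (2 * c₁) * (P ^ 2 + Q ^ 2) := by
      rw [div_mul_eq_mul_div]
      refine div_le_div_of_nonneg_right ?_ (by positivity)
      have h3 : (1 + G ^ 2) * (P ^ 2 + Q ^ 2) - (P + G * Q) ^ 2 = (G * P - Q) ^ 2 := by ring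
      rw [← sub_nonneg, h3]
      positivity
    linarith
  have hfin : c₁ ^ 2 / (1 + G ^ 2) * R - 2 * c₁ * K₁ ≤ P ^ 2 + Q ^ 2 := by
    have h1 : c₁ / 2 * R - K₁ ≤ (1 + G ^ 2) / (2 * c₁) * (P ^ 2 + Q ^ 2) := by linarith
    have h2 : (2 * c₁ / (1 + G ^ 2)) * (c₁ / 2 * R - K₁)
        ≤ (2 * c₁ / (1 + G ^ 2)) * ((1 + G ^ 2) / (2 * c₁) * (P ^ 2 + Q ^ 2)) :=
      mul_le_mul_of_nonneg_left h1 (by positivity)
    have h3 : (2 * c₁ / (1 + G ^ 2)) * ((1 + G ^ 2) / (2 * c₁) * (P ^ 2 + Q ^ 2))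
        = P ^ 2 + Q ^ 2 := by
      field_simp
    have h4 : (2 * c₁ / (1 + G ^ 2)) * (c₁ / 2 * R - K₁)
        = c₁ ^ 2 / (1 + G ^ 2) * R - 2 * c₁ * K₁ / (1 + G ^ 2) := by
      field_simp
    have h5 : 2 * c₁ * K₁ / (1 + G ^ 2) ≤ 2 * c₁ * K₁ := by
      apply div_le_self (by positivity)
      have := sq_nonneg G
      linarith
    linarith
  have hmin1 : min c₁ (c₁ ^ 2 / (1 + G ^ 2)) * R ≤ c₁ * R :=
    mul_le_mul_of_nonneg_right (min_le_left _ _) hR0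
  have hmin2 : min c₁ (c₁ ^ 2 / (1 + G ^ 2)) * R ≤ c₁ ^ 2 / (1 + G ^ 2) * R :=
    mul_le_mul_of_nonneg_right (min_le_right _ _) hR0
  have hcK : 0 ≤ 2 * c₁ * K₁ := by positivity
  have hK : (1 + G ^ 2 + G + K₁ + 2 * c₁ * K₁) * R
      = R + G ^ 2 * R + G * R + (K₁ + 2 * c₁ * K₁) * R := by ring
  have hG2 : 0 ≤ G ^ 2 := by positivity
  refine ⟨?_, ?_, ?_, ?_, ?_, ?_, ?_, hW⟩
  · rw [hK]; linarith
  · rw [hK]; linarith
  · have := abs_sub ⟪Gx g a b x y, Gy g a b x y⟫ ⟪x, y⟫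
    rw [hK]; linarith
  · rw [hK]; linarith
  · rw [hK]; linarith
  · rw [hPQ]
    linarith
  · rw [← hW]
    linarith

end Pool.Agent.H706R2.Mah
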