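import Pool.Agent.H706R2.Mah.Defs
import Pool.Agent.H706R2.Mah.T3
import Pool.Agent.H512R3.Mah.T4
import Pool.Agent.H512R3.Mah.T5
import Pool.Agent.H706R2.Mah.T6a
import Pool.Agent.H706R2.Mah.T6b
import Pool.Agent.H706R2.Mah.T6c

/-!
# T7. The complex identity (regularised)
-/

set_option autoImplicit false

namespace Pool.Agent.H706R2.Mah

open MeasureTheory Real Set Filter Topology
open scoped RealInnerProductSpace ENNReal

variable {n : ℕ} {ι : Type} [Fintype ι]

namespace T7aux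

theorem norm_cos_le {z : ℂ} {η : ℝ} (h : |z.im| ≤ η) : ‖Complex.cos z‖ ≤ Real.exp η := by
  have h1 := abs_le.1 h
  rw [Complex.cos]
  rw [norm_div]
  have h2 : ‖Complex.exp (z * Complex.I)‖ ≤ Real.exp η := by
    rw [Complex.norm_exp]
    apply Real.exp_le_exp.2
    simp
    linarith
  have h3 : ‖Complex.exp (-z * Complex.I)‖ ≤ Real.exp η := by
    rw [Complex.norm_exp]
    apply Real.exp_le_exp.2
    simp
    linarith
  have h4 := norm_add_le (Complex.exp (z * Complex.I)) (Complex.exp (-z * Complex.I))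
  have h5 : ‖(2:ℂ)‖ = 2 := by simp
  rw [h5, div_le_iff₀ (by norm_num)]
  linarith

theorem norm_det_le {m : ℕ} (M : Matrix (Fin m) (Fin m) ℂ) (B : ℝ) (hM : ∀ i j, ‖M i j‖ ≤ B) :
    ‖M.det‖ ≤ (m.factorial : ℝ) * B ^ m := by
  rw [Matrix.det_apply]
  refine (norm_sum_le _ _).trans ?_
  have h1 : ∀ σ : Equiv.Perm (Fin m), ‖Equiv.Perm.sign σ • ∏ i, M (σ i) i‖ ≤ B ^ m := by
    intro σ
    have h2 : ‖Equiv.Perm.sign σ • ∏ i, M (σ i) i‖ = ‖∏ i, M (σ i) i‖ := by
      rcases Int.units_eq_one_or (Equiv.Perm.sign σ) with h | h <;> rw [h] <;> simp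
    rw [h2, norm_prod]
    calc ∏ i, ‖M (σ i) i‖ ≤ ∏ i : Fin m, B :=
          Finset.prod_le_prod (fun i _ => norm_nonneg _) (fun i _ => hM _ _)
      _ = B ^ m := by simp
  calc ∑ σ : Equiv.Perm (Fin m), ‖Equiv.Perm.sign σ • ∏ i, M (σ i) i‖
      ≤ ∑ σ : Equiv.Perm (Fin m), B ^ m := Finset.sum_le_sum fun σ _ => h1 σ
    _ = (m.factorial : ℝ) * B ^ m := by
        rw [Finset.sum_const, Finset.card_univ, Fintype.card_perm, Fintype.card_fin, nsmul_eq_mul]

theorem cont_g {δ C : ℝ} {g : E n → E n} {A : E n → Mat n} (h : Nice δ C g A) :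
    Continuous g := continuous_iff_continuousAt.2 fun x => (h.deriv x).continuousAt

omit [Fintype ι] in
theorem cont_pt (a b : ι → ℝ) (l : ι) :
    Continuous fun ω : E n × E n => pt a b ω.1 ω.2 l := by
  unfold pt
  fun_prop

theorem cont_Gx {g : E n → E n} (hg : Continuous g) (a b : ι → ℝ) :
    Continuous fun ω : E n × E n => Gx g a b ω.1 ω.2 := by
  unfold Gx
  apply continuous_finsetSum
  intro l _
  exact (hg.comp (cont_pt a b l)).fun_const_smul _

theorem cont_Gy {g : E n → E n} (hg : Continuous g) (a b : ι → ℝ) :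
    Continuous fun ω : E n × E n => Gy g a b ω.1 ω.2 := by
  unfold Gy
  apply continuous_finsetSum
  intro l _
  exact (hg.comp (cont_pt a b l)).fun_const_smul _

theorem cont_phase {g : E n → E n} (hg : Continuous g) (a b : ι → ℝ) (ε : ℝ) (χ : ℂ) :
    Continuous fun ω : E n × E n => phase ε g a b χ ω.1 ω.2 := by
  have h1 := cont_Gx hg a b
  have h2 := cont_Gy hg a b
  unfold phase
  fun_prop

theorem cont_detf {A : E n → Mat n} (hA : Continuous A) (a b : ι → ℝ) (χ : ℂ) :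
    Continuous fun ω : E n × E n => detf A a b χ ω.1 ω.2 := by
  unfold detf
  apply Continuous.matrix_det
  apply continuous_finsetSum
  intro l _
  have h1 : Continuous fun ω : E n × E n =>
      (A (pt a b ω.1 ω.2 l)).map (fun r : ℝ => (r : ℂ)) :=
    (hA.comp (cont_pt a b l)).matrix_map Complex.continuous_ofReal
  fun_prop

theorem diff_phase (g : E n → E n) (a b : ι → ℝ) (ε : ℝ) (x y : E n) :
    Differentiable ℂ fun χ : ℂ => phase ε g a b χ x y := by
  unfold phase
  fun_prop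

theorem diff_det {m : ℕ} (M : ℂ → Matrix (Fin m) (Fin m) ℂ)
    (hM : ∀ i j, Differentiable ℂ fun z => M z i j) : Differentiable ℂ fun z => (M z).det := by
  simp only [Matrix.det_apply]
  apply Differentiable.fun_sum
  intro σ _
  apply Differentiable.const_smul
  apply Differentiable.fun_finsetProd
  intro i _
  exact hM _ _

theorem diff_detf (A : E n → Mat n) (a b : ι → ℝ) (x y : E n) :
    Differentiable ℂ fun χ : ℂ => detf A a b χ x y := by
  unfold detf
  apply diff_det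
  intro i j
  simp only [Matrix.sum_apply, Matrix.smul_apply, Matrix.map_apply, smul_eq_mul]
  fun_prop

theorem detf_bound {δ C : ℝ} {g : E n → E n} {A : E n → Mat n} (h : Nice δ C g A)
    (a b : ι → ℝ) (η : ℝ) :
    ∃ M : ℝ, ∀ χ : ℂ, |χ.im| ≤ η → ∀ x y : E n, ‖detf A a b χ x y‖ ≤ M := by
  refine ⟨(n.factorial : ℝ) * (∑ l, (|a l ^ 2 + b l ^ 2| + 2 * Real.exp η * |a l * b l|) * C) ^ n,
    ?_⟩
  intro χ hχ x y
  unfold detf
  apply norm_det_le
  intro i j
  rw [Matrix.sum_apply]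
  refine (norm_sum_le _ _).trans (Finset.sum_le_sum fun l _ => ?_)
  rw [Matrix.smul_apply, Matrix.map_apply, smul_eq_mul, norm_mul, Complex.norm_real,
    Real.norm_eq_abs]
  apply mul_le_mul _ (h.entry _ i j) (abs_nonneg _) (by positivity)
  refine (norm_add_le _ _).trans ?_
  rw [Complex.norm_real, Real.norm_eq_abs, norm_mul, norm_mul, Complex.norm_real,
    Real.norm_eq_abs]
  have h1 := norm_cos_le hχ
  have h2 : ‖(2:ℂ)‖ = 2 := by simp
  rw [h2]
  gcongr

theorem isPreconnected_strip (a b η : ℝ) :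
    IsPreconnected {χ : ℂ | a < χ.re ∧ χ.re < b ∧ |χ.im| < η} := by
  apply Convex.isPreconnected
  have h1 : Convex ℝ {χ : ℂ | a < χ.re} := convex_halfSpace_re_gt a
  have h2 : Convex ℝ {χ : ℂ | χ.re < b} := convex_halfSpace_re_lt b
  have h3 : Convex ℝ {χ : ℂ | -η < χ.im} := convex_halfSpace_im_gt (-η)
  have h4 : Convex ℝ {χ : ℂ | χ.im < η} := convex_halfSpace_im_lt η
  have h5 : {χ : ℂ | a < χ.re ∧ χ.re < b ∧ |χ.im| < η} =
      {χ : ℂ | a < χ.re} ∩ {χ : ℂ | χ.re < b} ∩ {χ : ℂ | -η < χ.im} ∩ {χ : ℂ | χ.im < η} := by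
    ext χ
    simp only [mem_ofPred_eq, mem_inter_iff, abs_lt]
    tauto
  rw [h5]
  exact ((h1.inter h2).inter h3).inter h4

theorem isOpen_strip (a b η : ℝ) :
    IsOpen {χ : ℂ | a < χ.re ∧ χ.re < b ∧ |χ.im| < η} := by
  apply IsOpen.inter (isOpen_lt continuous_const Complex.continuous_re)
  apply IsOpen.inter (isOpen_lt Complex.continuous_re continuous_const)
  exact isOpen_lt Complex.continuous_im.abs continuous_const

theorem integrable_gauss (n : ℕ) {c : ℝ} (hc : 0 < c) (M : ℝ) :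
    Integrable (fun ω : E n × E n => M * Real.exp (-c * (‖ω.1‖ ^ 2 + ‖ω.2‖ ^ 2))) := by
  apply Integrable.const_mul
  have h1 := (T4_gauss n (ε := 2 * c) (by positivity)).1.norm
  refine h1.congr (Filter.Eventually.of_forall fun ω => ?_)
  simp only
  rw [Complex.norm_exp]
  congr 1
  simp only [Complex.add_re, Complex.mul_re, Complex.I_re, Complex.I_im, Complex.ofReal_re,
    Complex.ofReal_im, Complex.neg_re, Complex.neg_im]
  have h2 : ((2 * c : ℝ) : ℂ) / 2 = ((c : ℝ) : ℂ) := by push_cast; ring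
  rw [h2]
  simp only [Complex.ofReal_re, Complex.ofReal_im]
  ring

end T7aux

open T7aux

theorem T7_identity {δ C c₀ : ℝ} {g : E n → E n} {A : E n → Mat n} (h : Nice δ C g A)
    {a b : ι → ℝ} (hab : Good c₀ a b) [Nonempty ι] :
    ∃ ε₀ > 0, ∀ ε, 0 < ε → ε ≤ ε₀ →
      ∫ ω : E n × E n, Complex.exp (phase ε g a b ((π / 2 : ℝ) : ℂ) ω.1 ω.2) *
        detf A a b ((π / 2 : ℝ) : ℂ) ω.1 ω.2 = (((2 * π) ^ n / (√(1 + ε ^ 2)) ^ n : ℝ) : ℂ) := by
  obtain ⟨ε₀, hε₀, hdom⟩ := T6_dom_of (T6a_growth h hab) (fun hc hK => T6b_scalar hc hK)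
  refine ⟨ε₀, hε₀, fun ε hε hεle => ?_⟩
  obtain ⟨η, hη, c', hc', K', hK⟩ := hdom ε hε hεle
  obtain ⟨M, hM⟩ := detf_bound h a b η
  set U : Set ℂ := {χ : ℂ | -η < χ.re ∧ χ.re < π / 2 + η ∧ |χ.im| < η} with hU
  have hUo : IsOpen U := isOpen_strip _ _ _
  have hUc : IsPreconnected U := isPreconnected_strip _ _ _
  have hcg := cont_g h
  have hhol : DifferentiableOn ℂ (fun χ : ℂ => ∫ ω : E n × E n,
      Complex.exp (phase ε g a b χ ω.1 ω.2) * detf A a b χ ω.1 ω.2) U := by
    apply T3_holo hUo (fun χ (ω : E n × E n) =>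
        Complex.exp (phase ε g a b χ ω.1 ω.2) * detf A a b χ ω.1 ω.2)
      (fun ω => (M * Real.exp K') * Real.exp (-c' * (‖ω.1‖ ^ 2 + ‖ω.2‖ ^ 2)))
      (integrable_gauss n hc' _)
    · intro χ hχ ω
      rw [norm_mul, Complex.norm_exp]
      have h1 := hK χ hχ.1 hχ.2.1 hχ.2.2 ω.1 ω.2
      have h2 := hM χ hχ.2.2.le ω.1 ω.2
      calc Real.exp (phase ε g a b χ ω.1 ω.2).re * ‖detf A a b χ ω.1 ω.2‖
          ≤ Real.exp (K' - c' * (‖ω.1‖ ^ 2 + ‖ω.2‖ ^ 2)) * M :=
            mul_le_mul (Real.exp_le_exp.2 h1) h2 (norm_nonneg _) (Real.exp_pos _).le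
        _ = _ := by
            rw [sub_eq_add_neg, Real.exp_add]
            ring_nf
    · intro χ _
      exact ((Complex.continuous_exp.comp (cont_phase hcg a b ε χ)).mul
        (cont_detf h.cont a b χ)).aestronglyMeasurable
    · intro ω
      exact ((diff_phase g a b ε ω.1 ω.2).cexp.mul (diff_detf A a b ω.1 ω.2)).differentiableOn
  have han := hhol.analyticOnNhd hUo
  have hconst : AnalyticOnNhd ℂ (fun _ : ℂ => (((2 * π) ^ n / (√(1 + ε ^ 2)) ^ n : ℝ) : ℂ)) U :=
    analyticOnNhd_const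
  have h0 : (0:ℂ) ∈ U := by
    refine ⟨?_, ?_, ?_⟩ <;> simp
    · exact hη
    · positivity
    · exact hη
  have hfreq : ∃ᶠ z in 𝓝[≠] (0:ℂ), (∫ ω : E n × E n,
      Complex.exp (phase ε g a b z ω.1 ω.2) * detf A a b z ω.1 ω.2) =
        (((2 * π) ^ n / (√(1 + ε ^ 2)) ^ n : ℝ) : ℂ) := by
    have hseq : Tendsto (fun k : ℕ => ((1 / ((k:ℝ) + 1) : ℝ) : ℂ) * Complex.I) atTop
        (𝓝[≠] (0:ℂ)) := by
      rw [tendsto_nhdsWithin_iff]
      refine ⟨?_, Filter.Eventually.of_forall fun k => ?_⟩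
      · have h3 := ((Complex.continuous_ofReal.tendsto 0).comp
          (tendsto_one_div_add_atTop_nhds_zero_nat (𝕜 := ℝ))).mul_const Complex.I
        rw [Complex.ofReal_zero, zero_mul] at h3
        exact h3
      · simp only [mem_compl_iff, mem_singleton_iff, mul_eq_zero, Complex.I_ne_zero, or_false,
          Complex.ofReal_eq_zero]
        positivity
    apply hseq.frequently
    apply Filter.Eventually.frequently
    have hκ0 : Tendsto (fun k : ℕ => (1 / ((k:ℝ) + 1) : ℝ)) atTop (𝓝 0) :=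
      tendsto_one_div_add_atTop_nhds_zero_nat (𝕜 := ℝ)
    have hpos : ∀ᶠ κ in 𝓝 (0:ℝ), ∀ l, 0 < a l ^ 2 + b l ^ 2 + 2 * Real.cosh κ * (a l * b l) := by
      rw [Filter.eventually_all]
      intro l
      have hc : Continuous fun κ : ℝ => a l ^ 2 + b l ^ 2 + 2 * Real.cosh κ * (a l * b l) := by
        fun_prop
      have hv : (0:ℝ) < a l ^ 2 + b l ^ 2 + 2 * Real.cosh 0 * (a l * b l) := by
        rw [Real.cosh_zero]
        have := hab.ne l
        have h2 : 0 < (a l + b l) ^ 2 := by positivity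
        nlinarith
      exact hc.continuousAt.eventually_const_lt hv
    have hsmall : ∀ᶠ κ in 𝓝 (0:ℝ), |κ| < η := by
      have hc : ContinuousAt (fun κ : ℝ => |κ|) 0 := continuous_abs.continuousAt
      exact hc.eventually_lt_const (by simpa using hη)
    filter_upwards [hκ0.eventually hpos, hκ0.eventually hsmall] with k hk1 hk2
    set κ : ℝ := 1 / ((k:ℝ) + 1) with hκ
    rw [T5_real h hab hε hk1 hc' (K' := K') ?_, (T4_gauss n hε).2]
    intro x y
    apply hK
    · simp [hη]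
    · simp; positivity
    · simpa using hk2
  have heq := han.eqOn_of_preconnected_of_frequently_eq hconst hUc h0 hfreq
  apply heq
  refine ⟨?_, ?_, ?_⟩
  · rw [Complex.ofReal_re]
    have := Real.pi_pos
    linarith
  · rw [Complex.ofReal_re]
    linarith
  · rw [Complex.ofReal_im]
    simpa using hη

end Pool.Agent.H706R2.Mah
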